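import Pool.Agent.Lib.MP_d35c37_al.Basic

set_option autoImplicit false

open scoped Pointwise

namespace Pool.Agent.MP_d35c37

open FreeGroup

/-- right action of words satisfying the inverse semigroup laws -/
structure InvAct (β M : Type*) where
  act : M → List (β ⊕ β) → M
  act_nil : ∀ m, act m [] = m
  act_append : ∀ m u v, act m (u ++ v) = act (act m u) v
  R2 : ∀ m w, act (act (act m w) (winv w)) w = act m w
  R3 : ∀ m u v, act (act (act (act m u) (winv u)) v) (winv v) =
    act (act (act (act m v) (winv v)) u) (winv u)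

namespace InvAct

variable {β M : Type*} (A : InvAct β M)

/-- `w` is readable from `m` -/
def Rd (m : M) (w : List (β ⊕ β)) : Prop := A.act (A.act m w) (winv w) = m

lemma Rd_nil (m : M) : A.Rd m [] := by
  simp [Rd, A.act_nil]

lemma R2' (m : M) (w : List (β ⊕ β)) :
    A.act (A.act (A.act m (winv w)) w) (winv w) = A.act m (winv w) := by
  have := A.R2 m (winv w)
  rwa [winv_winv] at this

lemma Rd_append {m : M} {u v : List (β ⊕ β)} :
    A.Rd m (u ++ v) ↔ A.Rd m u ∧ A.Rd (A.act m u) v := by
  constructor
  · intro h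
    have h0 : A.act (A.act (A.act (A.act m u) v) (winv v)) (winv u) = m := by
      have := h
      rw [Rd, winv_append, A.act_append, A.act_append] at this
      exact this
    have h1 : A.Rd m u := by
      show A.act (A.act m u) (winv u) = m
      conv_lhs => rw [← h0]
      rw [A.R2', h0]
    refine ⟨h1, ?_⟩
    show A.act (A.act (A.act m u) v) (winv v) = A.act m u
    have h3 := A.R3 (A.act m u) v (winv u)
    rw [winv_winv, h0, h1] at h3
    exact h3.symm
  · rintro ⟨h1, h2⟩
    show A.act (A.act m (u ++ v)) (winv (u ++ v)) = m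
    rw [winv_append, A.act_append, A.act_append, h2, h1]

lemma Rd_act_winv (m : M) (w : List (β ⊕ β)) : A.Rd (A.act m w) (winv w) := by
  show A.act (A.act (A.act m w) (winv w)) (winv (winv w)) = A.act m w
  rw [winv_winv, A.R2]

lemma Rd.left {A : InvAct β M} {m : M} {u v : List (β ⊕ β)} (h : A.Rd m (u ++ v)) : A.Rd m u :=
  (A.Rd_append.1 h).1

lemma Rd.right {A : InvAct β M} {m : M} {u v : List (β ⊕ β)} (h : A.Rd m (u ++ v)) :
    A.Rd (A.act m u) v :=
  (A.Rd_append.1 h).2

section munn

variable [DecidableEq β]

/-- reading a word is the same as reading its reduced form -/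
lemma Rd.reduce {A : InvAct β M} {m : M} (w : List (β ⊕ β)) (h : A.Rd m w) :
    A.Rd m (rwd (val w)) ∧ A.act m (rwd (val w)) = A.act m w := by
  induction w using List.reverseRecOn with
  | nil => simp [Rd_nil]
  | append_singleton w c ih =>
    obtain ⟨h1, h2⟩ := A.Rd_append.1 h
    obtain ⟨i1, i2⟩ := ih h1
    rw [val_append]
    rcases rwd_mul_letter (val w) c with e | e
    · rw [e]
      refine ⟨A.Rd_append.2 ⟨i1, by rw [i2]; exact h2⟩, ?_⟩
      rw [A.act_append, A.act_append, i2]
    · rw [e] at i1 i2
      obtain ⟨j1, j2⟩ := A.Rd_append.1 i1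
      refine ⟨j1, ?_⟩
      rw [A.act_append, ← i2, A.act_append]
      have : A.act (A.act (A.act m (rwd (val w * val [c]))) [c.swap]) (winv [c.swap]) =
        A.act m (rwd (val w * val [c])) := j2
      rw [winv_singleton, Sum.swap_swap] at this
      exact this.symm

/-- Munn's theorem, readability part -/
lemma Rd.munn {A : InvAct β M} {m : M} {u : List (β ⊕ β)} (h : A.Rd m u)
    (v : List (β ⊕ β)) (hv : tr v ⊆ tr u) : A.Rd m v := by
  induction v using List.reverseRecOn with
  | nil => exact A.Rd_nil m
  | append_singleton v c ih =>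
    rw [tr_append] at hv
    have hv1 : tr v ⊆ tr u := Set.subset_union_left.trans hv
    have hr := ih hv1
    obtain ⟨r1, r2⟩ := hr.reduce
    have hmem : val v * val [c] ∈ tr u := by
      apply hv
      right
      exact Set.smul_mem_smul_set (val_mem_tr _)
    obtain ⟨u1, u2, e, he⟩ := mem_tr_iff.1 hmem
    have ht : A.Rd m (rwd (val v * val [c])) := by
      rw [← he]
      rw [e] at h
      exact (Rd.reduce _ h.left).1
    refine A.Rd_append.2 ⟨hr, ?_⟩
    rcases rwd_mul_letter (val v) c with e' | e'
    · rw [e'] at ht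
      have := ht.right
      rwa [r2] at this
    · rw [e'] at r1 r2
      rw [← r2, A.act_append]
      have := A.Rd_act_winv (A.act m (rwd (val v * val [c]))) [c.swap]
      simpa using this

lemma Rd.munn_act {A : InvAct β M} {m : M} {u : List (β ⊕ β)} (h : A.Rd m u)
    (v : List (β ⊕ β)) (hv : tr v ⊆ tr u) (hval : val v = val u) : A.act m v = A.act m u := by
  rw [← (Rd.reduce u h).2, ← (Rd.reduce v (h.munn v hv)).2, hval]

end munn

end InvAct

end Pool.Agent.MP_d35c37
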