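import Mathlib

set_option autoImplicit false

open scoped Pointwise

namespace Pool.Agent.MP_d35c37

open FreeGroup

variable {α : Type*}

/-- letters of the free inverse semigroup alphabet, encoded in the free group alphabet -/
def ce : α ⊕ α ≃ α × Bool where
  toFun := fun x => match x with
    | .inl a => (a, true)
    | .inr a => (a, false)
  invFun := fun p => match p with
    | (a, true) => .inl a
    | (a, false) => .inr a
  left_inv := by rintro (a | a) <;> rfl
  right_inv := by rintro ⟨a, _ | _⟩ <;> rfl

/-- inverse word -/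
def winv (w : List (α ⊕ α)) : List (α ⊕ α) := (w.map Sum.swap).reverse

/-- value of a word in the free group -/
def val (w : List (α ⊕ α)) : FreeGroup α := FreeGroup.mk (w.map ce)

@[simp] lemma val_nil : val ([] : List (α ⊕ α)) = 1 := rfl

@[simp] lemma val_append (u v : List (α ⊕ α)) : val (u ++ v) = val u * val v := by
  simp [val, ← FreeGroup.mul_mk]

lemma val_cons (a : α ⊕ α) (v : List (α ⊕ α)) : val (a :: v) = val [a] * val v := by
  rw [← val_append]; rfl

@[simp] lemma winv_nil : winv ([] : List (α ⊕ α)) = [] := rfl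

@[simp] lemma winv_append (u v : List (α ⊕ α)) : winv (u ++ v) = winv v ++ winv u := by
  simp [winv]

@[simp] lemma winv_winv (u : List (α ⊕ α)) : winv (winv u) = u := by
  simp [winv, List.map_reverse, Function.comp_def]

@[simp] lemma winv_length (u : List (α ⊕ α)) : (winv u).length = u.length := by
  simp [winv]

lemma winv_cons (a : α ⊕ α) (v : List (α ⊕ α)) : winv (a :: v) = winv v ++ [a.swap] := by
  simp [winv]

@[simp] lemma winv_singleton (a : α ⊕ α) : winv [a] = [a.swap] := rfl

lemma winv_eq_nil {u : List (α ⊕ α)} : winv u = [] ↔ u = [] := by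
  simp [winv]

lemma val_swap (a : α ⊕ α) : val [a.swap] = (val [a])⁻¹ := by
  rcases a with a | a <;> rfl

@[simp] lemma val_winv (u : List (α ⊕ α)) : val (winv u) = (val u)⁻¹ := by
  induction u with
  | nil => simp
  | cons a u ih =>
    rw [winv_cons, val_append, ih, val_cons a u, val_swap, mul_inv_rev]

/-- Munn tree (set of values of prefixes) -/
def tr : List (α ⊕ α) → Set (FreeGroup α)
  | [] => {1}
  | a :: w => insert 1 (val [a] • tr w)

@[simp] lemma tr_nil : tr ([] : List (α ⊕ α)) = {1} := rfl

lemma tr_cons (a : α ⊕ α) (w : List (α ⊕ α)) : tr (a :: w) = insert 1 (val [a] • tr w) := rfl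

@[simp] lemma one_mem_tr (w : List (α ⊕ α)) : (1 : FreeGroup α) ∈ tr w := by
  cases w <;> simp [tr_cons]

lemma tr_append (u v : List (α ⊕ α)) : tr (u ++ v) = tr u ∪ val u • tr v := by
  induction u with
  | nil => simp
  | cons a u ih =>
    rw [List.cons_append, tr_cons, ih, tr_cons, Set.smul_set_union, val_cons a u, smul_smul,
      Set.insert_union]

lemma mem_tr_iff {w : List (α ⊕ α)} {g : FreeGroup α} :
    g ∈ tr w ↔ ∃ u v, w = u ++ v ∧ val u = g := by
  induction w generalizing g with
  | nil =>
    simp only [tr_nil, Set.mem_singleton_iff]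
    constructor
    · rintro rfl; exact ⟨[], [], rfl, rfl⟩
    · rintro ⟨u, v, h, rfl⟩
      have := (List.append_eq_nil_iff.1 h.symm).1
      subst this; rfl
  | cons a w ih =>
    rw [tr_cons, Set.mem_insert_iff, Set.mem_smul_set]
    constructor
    · rintro (rfl | ⟨y, hy, rfl⟩)
      · exact ⟨[], a :: w, rfl, rfl⟩
      · obtain ⟨u, v, rfl, rfl⟩ := ih.1 hy
        exact ⟨a :: u, v, rfl, by rw [val_cons]; rfl⟩
    · rintro ⟨u, v, h, rfl⟩
      rcases u with _ | ⟨b, u⟩
      · left; rfl
      · right
        simp only [List.cons_append, List.cons.injEq] at h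
        obtain ⟨rfl, rfl⟩ := h
        refine ⟨val u, ih.2 ⟨u, v, rfl, rfl⟩, ?_⟩
        rw [val_cons]; rfl

lemma val_mem_tr (w : List (α ⊕ α)) : val w ∈ tr w :=
  mem_tr_iff.2 ⟨w, [], by simp, rfl⟩

lemma tr_winv (w : List (α ⊕ α)) : tr (winv w) = (val w)⁻¹ • tr w := by
  ext x
  rw [Set.mem_smul_set, mem_tr_iff]
  constructor
  · rintro ⟨u, v, h, rfl⟩
    have h2 : w = winv v ++ winv u := by
      rw [← winv_append, ← h, winv_winv]
    refine ⟨val (winv v), mem_tr_iff.2 ⟨_, _, h2, rfl⟩, ?_⟩
    rw [h2]
    simp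
  · rintro ⟨y, hy, rfl⟩
    obtain ⟨u, v, rfl, rfl⟩ := mem_tr_iff.1 hy
    exact ⟨winv v, winv u, by simp, by simp⟩

lemma tr_finite (w : List (α ⊕ α)) : (tr w).Finite := by
  induction w with
  | nil => simp
  | cons a w ih => rw [tr_cons]; exact (ih.smul_set).insert _

section norm

variable [DecidableEq α]

lemma norm_val_le (w : List (α ⊕ α)) : (val w).norm ≤ w.length := by
  unfold val
  exact norm_mk_le.trans (by simp)

lemma norm_of_mem_tr {w : List (α ⊕ α)} {x : FreeGroup α} (hx : x ∈ tr w) :
    x.norm ≤ w.length := by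
  obtain ⟨u, v, rfl, rfl⟩ := mem_tr_iff.1 hx
  exact (norm_val_le u).trans (by simp)

lemma norm_inv_mul_comm (x y : FreeGroup α) : (x⁻¹ * y).norm = (y⁻¹ * x).norm := by
  rw [← norm_inv_eq]; simp

/-- two points of the Munn tree of `w` are at distance at most the length of `w` -/
lemma dist_of_mem_tr {w : List (α ⊕ α)} {x y : FreeGroup α} (hx : x ∈ tr w) (hy : y ∈ tr w) :
    (x⁻¹ * y).norm ≤ w.length := by
  obtain ⟨u, v, h, rfl⟩ := mem_tr_iff.1 hx
  obtain ⟨u', v', h', rfl⟩ := mem_tr_iff.1 hy
  have key : ∀ (a b c d : List (α ⊕ α)), w = a ++ b → w = c ++ d → a.length ≤ c.length →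
      ((val a)⁻¹ * val c).norm ≤ w.length := by
    intro a b c d h1 h2 h3
    have h4 : a <+: c := List.prefix_of_prefix_length_le ⟨b, h1.symm⟩ ⟨d, h2.symm⟩ h3
    obtain ⟨e, rfl⟩ := h4
    rw [val_append, inv_mul_cancel_left]
    refine (norm_val_le e).trans ?_
    rw [h2]; simp; omega
  rcases le_total u.length u'.length with hl | hl
  · exact key _ _ _ _ h h' hl
  · rw [norm_inv_mul_comm]; exact key _ _ _ _ h' h hl

/-- reduced word of a group element, in our alphabet -/
def rwd (g : FreeGroup α) : List (α ⊕ α) := g.toWord.map ce.symm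

@[simp] lemma val_rwd (g : FreeGroup α) : val (rwd g) = g := by
  simp [val, rwd, mk_toWord]

@[simp] lemma rwd_length (g : FreeGroup α) : (rwd g).length = g.norm := by
  simp [rwd, FreeGroup.norm]

@[simp] lemma rwd_one : rwd (1 : FreeGroup α) = [] := by simp [rwd]

lemma isReduced_of_append {l m : List (α × Bool)} (h : IsReduced (l ++ m)) :
    IsReduced l ∧ IsReduced m := by
  unfold FreeGroup.IsReduced at h ⊢
  exact ⟨(List.isChain_append.1 h).1, (List.isChain_append.1 h).2.1⟩

lemma rwd_mk_of_isReduced {l : List (α × Bool)} (h : IsReduced l) :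
    rwd (FreeGroup.mk l) = l.map ce.symm := by
  rw [rwd, toWord_mk, h.reduce_eq]

/-- multiplication by a letter on the right -/
lemma rwd_mul_letter (g : FreeGroup α) (c : α ⊕ α) :
    rwd (g * val [c]) = rwd g ++ [c] ∨ rwd g = rwd (g * val [c]) ++ [c.swap] := by
  have hg : FreeGroup.mk g.toWord = g := mk_toWord
  have hred : IsReduced g.toWord := isReduced_toWord
  have hprod : g * val [c] = FreeGroup.mk (g.toWord ++ [ce c]) := by
    rw [← FreeGroup.mul_mk, hg]; rfl
  rcases List.eq_nil_or_concat g.toWord with h0 | ⟨l, d, h0⟩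
  · left
    rw [hprod, h0, List.nil_append, rwd_mk_of_isReduced IsReduced.singleton]
    simp [rwd, h0]
  · rw [List.concat_eq_append] at h0
    by_cases hc : d.1 = (ce c).1 → d.2 = (ce c).2
    · left
      have hr : IsReduced (g.toWord ++ [ce c]) := by
        have h1 : IsReduced ([d] ++ [ce c]) := by
          simp only [List.cons_append, List.nil_append, isReduced_cons_cons]
          exact ⟨hc, IsReduced.singleton⟩
        have h2 := IsReduced.append_overlap (L₁ := l) (L₂ := [d]) (L₃ := [ce c])
          (by rw [← h0]; exact hred) h1 (by simp)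
        rw [h0]; exact h2
      rw [hprod, rwd_mk_of_isReduced hr]
      simp [rwd]
    · right
      push Not at hc
      have hd : ce.symm d = c.swap := by
        obtain ⟨d1, d2⟩ := d
        rcases c with c | c <;> rcases d2 with _ | _ <;> simp_all [ce]
      have hl : IsReduced l := (isReduced_of_append (m := [d]) (by rw [← h0]; exact hred)).1
      have hval : g * val [c] = FreeGroup.mk l := by
        have : g = FreeGroup.mk l * (val [c])⁻¹ := by
          rw [← val_swap, ← hd, ← hg, h0, ← FreeGroup.mul_mk]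
          simp [val]
        rw [this]; simp
      rw [hval, rwd_mk_of_isReduced hl, ← hd]
      simp [rwd, h0]

lemma rwd_map (g : FreeGroup α) : (rwd g).map ce = g.toWord := by
  simp [rwd]

lemma rwd_val_of_isReduced {t : List (α ⊕ α)} (h : IsReduced (t.map ce)) : rwd (val t) = t := by
  rw [val, rwd_mk_of_isReduced h]; simp

/-- prefixes of the reduced word are vertices of the Munn tree -/
lemma prefix_rwd_mem_tr (w : List (α ⊕ α)) :
    ∀ t, t <+: rwd (val w) → val t ∈ tr w := by
  induction w using List.reverseRecOn with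
  | nil =>
    intro t ht
    simp at ht
    subst ht; simp
  | append_singleton w c ih =>
    intro t ht
    rw [val_append] at ht
    rw [tr_append]
    rcases rwd_mul_letter (val w) c with h | h
    · rw [h, List.prefix_concat_iff] at ht
      rcases ht with ht | ht
      · right
        rw [ht, val_append, val_rwd]
        exact Set.smul_mem_smul_set (val_mem_tr _)
      · left; exact ih t ht
    · left
      apply ih
      rw [h]
      exact ht.trans (List.prefix_append _ _)

/-- first letter of the reduced form -/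
def hd (g : FreeGroup α) : Option (α ⊕ α) := (rwd g).head?

lemma rwd_eq_nil {g : FreeGroup α} : rwd g = [] ↔ g = 1 := by
  constructor
  · intro h
    rw [← val_rwd g, h]; rfl
  · rintro rfl; simp

@[simp] lemma hd_one : hd (1 : FreeGroup α) = none := by simp [hd]

lemma hd_eq_none {g : FreeGroup α} : hd g = none ↔ g = 1 := by
  rw [hd, List.head?_eq_none_iff, rwd_eq_nil]

lemma hd_mul_letter {g : FreeGroup α} {c : α ⊕ α} (h1 : g ≠ 1) (h2 : g * val [c] ≠ 1) :
    hd (g * val [c]) = hd g := by
  have h1' : rwd g ≠ [] := fun h => h1 (rwd_eq_nil.1 h)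
  have h2' : rwd (g * val [c]) ≠ [] := fun h => h2 (rwd_eq_nil.1 h)
  rcases rwd_mul_letter g c with h | h
  · rw [hd, h, List.head?_append_of_ne_nil _ h1']; rfl
  · rw [hd, hd, h, List.head?_append_of_ne_nil _ h2']

/-- a translated Munn tree avoiding `1` stays in one cone -/
lemma hd_of_mem_smul_tr {w : List (α ⊕ α)} : ∀ {v y : FreeGroup α},
    (1 : FreeGroup α) ∉ v • tr w → y ∈ v • tr w → hd y = hd v := by
  induction w with
  | nil =>
    intro v y _ hy
    simp at hy
    rw [hy]
  | cons c w ih =>
    intro v y h1 hy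
    rw [tr_cons, Set.smul_set_insert, smul_smul] at h1 hy
    simp only [smul_eq_mul, mul_one, Set.mem_insert_iff, not_or] at h1 hy
    rcases hy with rfl | hy
    · rfl
    · have := ih h1.2 hy
      rw [this]
      refine hd_mul_letter (fun h => h1.1 h.symm) ?_
      intro h
      apply h1.2
      rw [h, one_smul]; simp

lemma hd_eq_some {g : FreeGroup α} {c : α ⊕ α} (h : hd g = some c) :
    rwd g = c :: rwd ((val [c])⁻¹ * g) := by
  obtain ⟨t, ht⟩ : ∃ t, rwd g = c :: t := by
    rw [hd] at h
    rcases hr : rwd g with _ | ⟨d, t⟩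
    · rw [hr] at h; simp at h
    · rw [hr] at h; simp at h; exact ⟨t, by rw [h]⟩
  have h2 : (val [c])⁻¹ * g = val t := by
    have h4 : g = val [c] * val t := by rw [← val_cons c t, ← ht, val_rwd]
    rw [h4, inv_mul_cancel_left]
  have h3 : IsReduced (t.map ce) := by
    have : IsReduced ((rwd g).map ce) := by rw [rwd_map]; exact isReduced_toWord
    rw [ht] at this
    exact (isReduced_of_append (l := [ce c]) this).2
  rw [h2, rwd_val_of_isReduced h3, ht]

lemma norm_of_hd {g : FreeGroup α} {c : α ⊕ α} (h : hd g = some c) :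
    g.norm = ((val [c])⁻¹ * g).norm + 1 := by
  rw [← rwd_length, hd_eq_some h]; simp

end norm

end Pool.Agent.MP_d35c37
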