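import Pool.Agent.Lib.MP_d35c37_al.Iso

set_option autoImplicit false

open scoped Pointwise

namespace Pool.Agent.MP_d35c37

open FreeGroup

section red

variable {α : Type*} [DecidableEq α]

/-- one step of free reduction -/
def rstep (a : α ⊕ α) (acc : List (α ⊕ α)) : List (α ⊕ α) :=
  List.casesOn acc [a] (fun b t => if b = a.swap then t else a :: b :: t)

lemma rstep_eq (a : α ⊕ α) (w : List (α ⊕ α)) :
    rstep a (rwd (val w)) = rwd (val (a :: w)) := by
  have h1 : rwd (val (a :: w)) = (reduce (ce a :: w.map ce)).map ce.symm := by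
    rw [rwd, val, toWord_mk]; rfl
  have h2 : rwd (val w) = (reduce (w.map ce)).map ce.symm := by
    rw [rwd, val, toWord_mk]
  rw [h1, h2, reduce.cons]
  rcases reduce (w.map ce) with _ | ⟨⟨b, ε⟩, t⟩
  · simp [rstep]
  · have key : ((ce.symm (b, ε) : α ⊕ α) = a.swap) ↔ ((ce a).1 = b ∧ (ce a).2 = !ε) := by
      rcases a with a | a <;> rcases ε with _ | _ <;> simp [ce] <;> exact eq_comm
    simp only [List.map_cons, rstep]
    by_cases h : (ce a).1 = b ∧ (ce a).2 = !ε
    · rw [if_pos (key.2 h), if_pos h]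
    · rw [if_neg (fun h' => h (key.1 h')), if_neg h]
      simp

/-- list of reduced forms of prefixes -/
def vs (w : List (α ⊕ α)) : List (List (α ⊕ α)) :=
  w.foldr (fun a acc => [] :: acc.map (fun x => rstep a x)) [[]]

/-- reduced form -/
def rdd (w : List (α ⊕ α)) : List (α ⊕ α) := w.foldr (fun a acc => rstep a acc) []

lemma rdd_eq (w : List (α ⊕ α)) : rdd w = rwd (val w) := by
  induction w with
  | nil => simp [rdd]
  | cons a w ih =>
    have : rdd (a :: w) = rstep a (rdd w) := rfl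
    rw [this, ih, rstep_eq]

lemma vs_cons (a : α ⊕ α) (w : List (α ⊕ α)) :
    vs (a :: w) = [] :: (vs w).map (fun x => rstep a x) := rfl

lemma mem_vs (w : List (α ⊕ α)) (x : List (α ⊕ α)) : x ∈ vs w ↔ ∃ g ∈ tr w, x = rwd g := by
  induction w generalizing x with
  | nil => simp [vs]
  | cons a w ih =>
    rw [vs_cons, List.mem_cons, List.mem_map, tr_cons]
    constructor
    · rintro (rfl | ⟨y, hy, rfl⟩)
      · exact ⟨1, by simp, by simp⟩
      · obtain ⟨g, hg, rfl⟩ := (ih y).1 hy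
        obtain ⟨u, v, e, rfl⟩ := mem_tr_iff.1 hg
        refine ⟨val (a :: u), ?_, rstep_eq a u⟩
        right
        rw [val_cons a u]
        exact Set.smul_mem_smul_set hg
    · rintro ⟨g, hg, rfl⟩
      rcases hg with rfl | ⟨g', hg', rfl⟩
      · left; simp
      · right
        obtain ⟨u, v, e, rfl⟩ := mem_tr_iff.1 hg'
        refine ⟨rwd (val u), (ih _).2 ⟨_, hg', rfl⟩, ?_⟩
        rw [rstep_eq, val_cons a u]; rfl

lemma rwd_injective : Function.Injective (rwd : FreeGroup α → List (α ⊕ α)) := by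
  intro x y h
  rw [← val_rwd x, h, val_rwd]

lemma vs_subset_iff (u v : List (α ⊕ α)) :
    (∀ x ∈ vs v, ∃ y ∈ vs u, y = x) ↔ tr v ⊆ tr u := by
  constructor
  · intro h g hg
    obtain ⟨y, hy, e⟩ := h (rwd g) ((mem_vs v _).2 ⟨g, hg, rfl⟩)
    rw [e] at hy
    obtain ⟨g', hg', e'⟩ := (mem_vs u _).1 hy
    rw [rwd_injective e']; exact hg'
  · intro h x hx
    obtain ⟨g, hg, rfl⟩ := (mem_vs v _).1 hx
    exact ⟨_, (mem_vs u _).2 ⟨g, h hg, rfl⟩, rfl⟩

/-- words that are products of at most `k` members of `G` -/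
def WW (G : List (List (α ⊕ α))) (k : ℕ) : List (List (α ⊕ α)) :=
  Nat.rec [[]] (fun _ acc => [] :: G.flatMap (fun g => acc.map (fun w => g ++ w))) k

omit [DecidableEq α] in
lemma WW_succ (G : List (List (α ⊕ α))) (k : ℕ) :
    WW G (k + 1) = [] :: G.flatMap (fun g => (WW G k).map (fun w => g ++ w)) := rfl

end red

section check

variable {α β : Type*}

lemma mem_WW (φ : β → List (α ⊕ α)) (G : List (List (α ⊕ α)))
    (hG : ∀ g, g ∈ G ↔ ∃ x, ph φ x = g) (k : ℕ) (w : List (α ⊕ α)) :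
    w ∈ WW G k ↔ ∃ p : List (β ⊕ β), p.length ≤ k ∧ Ph φ p = w := by
  induction k generalizing w with
  | zero =>
    have h0 : WW G 0 = [[]] := rfl
    rw [h0, List.mem_singleton]
    simp only [Nat.le_zero, List.length_eq_zero_iff, exists_eq_left, Ph_nil]
    exact eq_comm
  | succ k ih =>
    rw [WW_succ, List.mem_cons, List.mem_flatMap]
    constructor
    · rintro (rfl | ⟨g, hg, hw⟩)
      · exact ⟨[], by simp, rfl⟩
      · rw [List.mem_map] at hw
        obtain ⟨w', hw', rfl⟩ := hw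
        obtain ⟨x, rfl⟩ := (hG g).1 hg
        obtain ⟨p, hp, rfl⟩ := (ih w').1 hw'
        exact ⟨x :: p, by simpa using hp, Ph_cons φ x p⟩
    · rintro ⟨p, hp, rfl⟩
      rcases p with _ | ⟨x, p⟩
      · left; rfl
      · right
        refine ⟨ph φ x, (hG _).2 ⟨x, rfl⟩, ?_⟩
        rw [List.mem_map]
        exact ⟨Ph φ p, (ih _).2 ⟨p, by simpa using hp, rfl⟩, (Ph_cons φ x p).symm⟩

lemma Chk_iff [DecidableEq α] (φ : β → List (α ⊕ α)) (G : List (List (α ⊕ α)))
    (hG : ∀ g, g ∈ G ↔ ∃ x, ph φ x = g) (ρ K N : ℕ) :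
    Chk φ ρ K N ↔ ∀ u ∈ WW G N, (rdd u).length ≤ 2 * ρ →
      ∃ v ∈ WW G K, (∀ x ∈ vs v, ∃ y ∈ vs u, y = x) ∧ rdd v = rdd u := by
  constructor
  · intro h u hu hlen
    obtain ⟨p, hp, rfl⟩ := (mem_WW φ G hG N u).1 hu
    rw [rdd_eq, rwd_length] at hlen
    obtain ⟨q, q1, q2, q3⟩ := h p hp hlen
    refine ⟨Ph φ q, (mem_WW φ G hG K _).2 ⟨q, q1, rfl⟩, (vs_subset_iff _ _).2 q2, ?_⟩
    rw [rdd_eq, rdd_eq]
    exact congrArg rwd q3
  · intro h p hp hlen
    obtain ⟨v, hv, h1, h2⟩ := h (Ph φ p) ((mem_WW φ G hG N _).2 ⟨p, hp, rfl⟩) (by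
      rw [rdd_eq, rwd_length]; exact hlen)
    obtain ⟨q, hq, rfl⟩ := (mem_WW φ G hG K v).1 hv
    refine ⟨q, hq, (vs_subset_iff _ _).1 h1, ?_⟩
    rw [rdd_eq, rdd_eq] at h2
    exact rwd_injective h2

end check

section primrec

variable {n : ℕ}

abbrev Ltr (n : ℕ) : Type := Fin n ⊕ Fin n

lemma primrec_rstep : Primrec₂ (rstep : Ltr n → List (Ltr n) → List (Ltr n)) := by
  have hg : Primrec fun p : Ltr n × List (Ltr n) => [p.1] :=
    Primrec.list_cons.comp Primrec.fst (Primrec.const [])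
  have hh : Primrec₂ fun (p : Ltr n × List (Ltr n)) (bt : Ltr n × List (Ltr n)) =>
      if bt.1 = p.1.swap then bt.2 else p.1 :: bt.1 :: bt.2 := by
    refine Primrec.ite ?_ ?_ ?_
    · refine Primrec.eq.comp (Primrec.fst.comp Primrec.snd) ?_
      exact (Primrec.dom_finite (Sum.swap : Ltr n → Ltr n)).comp (Primrec.fst.comp Primrec.fst)
    · exact Primrec.snd.comp Primrec.snd
    · exact Primrec.list_cons.comp (Primrec.fst.comp Primrec.fst)
        (Primrec.list_cons.comp (Primrec.fst.comp Primrec.snd) (Primrec.snd.comp Primrec.snd))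
  exact Primrec.list_casesOn Primrec.snd hg hh

lemma primrec_rdd : Primrec (rdd : List (Ltr n) → List (Ltr n)) := by
  have hh : Primrec₂ fun (_ : List (Ltr n)) (p : Ltr n × List (Ltr n)) => rstep p.1 p.2 :=
    primrec_rstep.comp (Primrec.fst.comp Primrec.snd) (Primrec.snd.comp Primrec.snd)
  exact Primrec.list_foldr Primrec.id (Primrec.const []) hh

lemma primrec_vs : Primrec (vs : List (Ltr n) → List (List (Ltr n))) := by
  have hh : Primrec₂ fun (_ : List (Ltr n)) (p : Ltr n × List (List (Ltr n))) =>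
      [] :: p.2.map (fun x => rstep p.1 x) := by
    have h1 : Primrec₂ fun (q : List (Ltr n) × (Ltr n × List (List (Ltr n)))) (x : List (Ltr n)) =>
        rstep q.2.1 x :=
      primrec_rstep.comp (Primrec.fst.comp (Primrec.snd.comp Primrec.fst)) Primrec.snd
    exact Primrec.list_cons.comp (Primrec.const [])
      (Primrec.list_map (Primrec.snd.comp Primrec.snd) h1)
  exact Primrec.list_foldr Primrec.id (Primrec.const [[]]) hh

lemma primrec_WW : Primrec₂ (WW : List (List (Ltr n)) → ℕ → List (List (Ltr n))) := by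
  have hh : Primrec₂ fun (q : List (List (Ltr n)) × ℕ) (p : ℕ × List (List (Ltr n))) =>
      [] :: q.1.flatMap (fun g => p.2.map (fun w => g ++ w)) := by
    have h2 : Primrec₂ fun (t : ((List (List (Ltr n)) × ℕ) × (ℕ × List (List (Ltr n)))) × List (Ltr n))
        (w : List (Ltr n)) => t.2 ++ w :=
      Primrec.list_append.comp (Primrec.snd.comp Primrec.fst) Primrec.snd
    have h1 : Primrec₂ fun (t : (List (List (Ltr n)) × ℕ) × (ℕ × List (List (Ltr n))))
        (g : List (Ltr n)) => t.2.2.map (fun w => g ++ w) :=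
      Primrec.list_map (Primrec.snd.comp (Primrec.snd.comp Primrec.fst)) h2
    exact Primrec.list_cons.comp (Primrec.const [])
      (Primrec.list_flatMap (Primrec.fst.comp Primrec.fst) h1)
  exact Primrec.nat_rec' Primrec.snd (Primrec.const [[]]) hh

/-- letterwise inverse on lists -/
lemma primrec_winv : Primrec (winv : List (Ltr n) → List (Ltr n)) := by
  have h1 : Primrec₂ fun (_ : List (Ltr n)) (a : Ltr n) => a.swap :=
    (Primrec.dom_finite (Sum.swap : Ltr n → Ltr n)).comp Primrec.snd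
  exact Primrec.list_reverse.comp (Primrec.list_map Primrec.id h1)

lemma primrec_pow : Primrec₂ (fun a b : ℕ => a ^ b) :=
  Primrec₂.unpaired'.1 Nat.Primrec.pow

lemma primrec_nb : Primrec (nb n) := primrec_pow.comp (Primrec.const _) Primrec.id

lemma primrec_L0f : Primrec (L0f n) := by
  unfold L0f
  have h1 : Primrec fun r => 2 ^ nb n r * 2 ^ (nb n r * nb n r) :=
    Primrec.nat_mul.comp (primrec_pow.comp (Primrec.const 2) primrec_nb)
      (primrec_pow.comp (Primrec.const 2) (Primrec.nat_mul.comp primrec_nb primrec_nb))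
  exact primrec_pow.comp (primrec_pow.comp (Primrec.const 2) (Primrec.nat_mul.comp h1 h1))
    (Primrec.const _)

lemma primrec_K0f : Primrec (K0f n) := primrec_nb.comp primrec_L0f

/-- input type -/
abbrev Inp (n : ℕ) : Type := List (Ltr n × List (Ltr n))

/-- all generators and their inverses -/
def gensL (gens : Inp n) : List (List (Ltr n)) :=
  gens.map (fun g => g.1 :: g.2) ++ gens.map (fun g => winv (g.1 :: g.2))

/-- bound for the lengths of the generators -/
def rhoL (gens : Inp n) : ℕ := (gens.flatMap (fun g => g.1 :: g.2)).length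

lemma primrec_gensL : Primrec (gensL : Inp n → List (List (Ltr n))) := by
  have h1 : Primrec fun g : Ltr n × List (Ltr n) => g.1 :: g.2 :=
    Primrec.list_cons.comp Primrec.fst Primrec.snd
  have h2 : Primrec₂ fun (_ : Inp n) (g : Ltr n × List (Ltr n)) => g.1 :: g.2 :=
    h1.comp Primrec.snd
  have h3 : Primrec₂ fun (_ : Inp n) (g : Ltr n × List (Ltr n)) => winv (g.1 :: g.2) :=
    (primrec_winv.comp h1).comp Primrec.snd
  exact Primrec.list_append.comp (Primrec.list_map Primrec.id h2)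
    (Primrec.list_map Primrec.id h3)

lemma primrec_rhoL : Primrec (rhoL : Inp n → ℕ) := by
  have h1 : Primrec fun g : Ltr n × List (Ltr n) => g.1 :: g.2 :=
    Primrec.list_cons.comp Primrec.fst Primrec.snd
  have h2 : Primrec₂ fun (_ : Inp n) (g : Ltr n × List (Ltr n)) => g.1 :: g.2 :=
    h1.comp Primrec.snd
  exact Primrec.list_length.comp (Primrec.list_flatMap Primrec.id h2)

/-- the decision predicate -/
def Dec (gens : Inp n) : Prop :=
  ∀ u ∈ WW (gensL gens) (nb n ((K0f n (2 * rhoL gens) + 2) * rhoL gens)),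
    (rdd u).length ≤ 2 * rhoL gens →
      ∃ v ∈ WW (gensL gens) (K0f n (2 * rhoL gens)),
        (∀ x ∈ vs v, ∃ y ∈ vs u, y = x) ∧ rdd v = rdd u

lemma primrec_Dec : PrimrecPred (Dec : Inp n → Prop) := by
  have r1 : PrimrecRel fun (L1 : List (List (Ltr n))) (x : List (Ltr n)) => ∃ y ∈ L1, y = x :=
    PrimrecRel.exists_mem_list Primrec.eq
  have r2 : PrimrecRel fun (x : List (Ltr n)) (L1 : List (List (Ltr n))) => ∃ y ∈ L1, y = x :=
    r1.comp Primrec.snd Primrec.fst
  have r3 : PrimrecRel fun (L2 : List (List (Ltr n))) (L1 : List (List (Ltr n))) =>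
      ∀ x ∈ L2, ∃ y ∈ L1, y = x := r2.forall_mem_list
  have r4 : PrimrecRel fun (v u : List (Ltr n)) =>
      (∀ x ∈ vs v, ∃ y ∈ vs u, y = x) ∧ rdd v = rdd u :=
    PrimrecPred.and (r3.comp (primrec_vs.comp Primrec.fst) (primrec_vs.comp Primrec.snd))
      (Primrec.eq.comp (primrec_rdd.comp Primrec.fst) (primrec_rdd.comp Primrec.snd))
  have r5 : PrimrecRel fun (Lst : List (List (Ltr n))) (u : List (Ltr n)) =>
      ∃ v ∈ Lst, (∀ x ∈ vs v, ∃ y ∈ vs u, y = x) ∧ rdd v = rdd u := r4.exists_mem_list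
  have r6 : PrimrecRel fun (u : List (Ltr n)) (b : List (List (Ltr n)) × ℕ) =>
      (rdd u).length ≤ b.2 → ∃ v ∈ b.1, (∀ x ∈ vs v, ∃ y ∈ vs u, y = x) ∧ rdd v = rdd u := by
    have h1 : PrimrecPred fun c : List (Ltr n) × (List (List (Ltr n)) × ℕ) =>
        (rdd c.1).length ≤ c.2.2 :=
      Primrec.nat_le.comp (Primrec.list_length.comp (primrec_rdd.comp Primrec.fst))
        (Primrec.snd.comp Primrec.snd)
    have h2 : PrimrecPred fun c : List (Ltr n) × (List (List (Ltr n)) × ℕ) =>
        ∃ v ∈ c.2.1, (∀ x ∈ vs v, ∃ y ∈ vs c.1, y = x) ∧ rdd v = rdd c.1 :=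
      r5.comp (Primrec.fst.comp Primrec.snd) Primrec.fst
    exact (h1.not.or h2).of_eq (fun c => by
      constructor
      · rintro (h | h) h'
        · exact absurd h' h
        · exact h
      · intro h
        by_cases h' : (rdd c.1).length ≤ c.2.2
        · exact Or.inr (h h')
        · exact Or.inl h')
  have r7 := r6.forall_mem_list
  have hρ : Primrec (rhoL : Inp n → ℕ) := primrec_rhoL
  have h2ρ : Primrec fun gens : Inp n => 2 * rhoL gens :=
    Primrec.nat_mul.comp (Primrec.const 2) hρ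
  have hK : Primrec fun gens : Inp n => K0f n (2 * rhoL gens) := primrec_K0f.comp h2ρ
  have hN : Primrec fun gens : Inp n => nb n ((K0f n (2 * rhoL gens) + 2) * rhoL gens) :=
    primrec_nb.comp (Primrec.nat_mul.comp (Primrec.nat_add.comp hK (Primrec.const 2)) hρ)
  exact r7.comp (primrec_WW.comp primrec_gensL hN)
    (Primrec.pair (primrec_WW.comp primrec_gensL hK) h2ρ)

end primrec

end Pool.Agent.MP_d35c37
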