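import Pool.Agent.Lib.MP_d35c37_al.Comp

set_option autoImplicit false

open scoped Pointwise

namespace Pool.Agent.MP_d35c37

open FreeGroup

section

variable {α β : Type*}

lemma mem_closure_iff (φ : β → List (α ⊕ α)) (hne : ∀ b, φ b ≠ []) (X : Set (FI α))
    (hX : ∀ x, x ∈ X ↔ ∃ y : β ⊕ β, x = ((ofL (ph φ y) (ph_ne_nil φ hne y) :
      FreeSemigroup (α ⊕ α)) : FI α)) (x : FI α) :
    x ∈ Subsemigroup.closure X ↔ ∃ u, x = ((Phh φ hne u : FreeSemigroup (α ⊕ α)) : FI α) := by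
  constructor
  · intro h
    induction h using Subsemigroup.closure_induction with
    | mem x hx =>
      obtain ⟨y, rfl⟩ := (hX x).1 hx
      exact ⟨FreeSemigroup.of y, rfl⟩
    | mul x y _ _ hx hy =>
      obtain ⟨u, rfl⟩ := hx
      obtain ⟨v, rfl⟩ := hy
      exact ⟨u * v, by rw [_root_.map_mul, Con.coe_mul]⟩
  · rintro ⟨u, rfl⟩
    induction u using FreeSemigroup.recOnMul with
    | ih1 y => exact Subsemigroup.subset_closure ((hX _).2 ⟨y, rfl⟩)
    | ih2 y u ih1 ih2 =>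
      rw [_root_.map_mul, Con.coe_mul]
      exact Subsemigroup.mul_mem _ ih1 ih2

end

variable {n : ℕ}

/-- generators as a function -/
def phi (gens : Inp n) (i : Fin gens.length) : List (Ltr n) := (gens.get i).1 :: (gens.get i).2

lemma phi_ne_nil (gens : Inp n) (i : Fin gens.length) : phi gens i ≠ [] := by simp [phi]

lemma phi_length (gens : Inp n) (i : Fin gens.length) : (phi gens i).length ≤ rhoL gens := by
  unfold rhoL
  rw [List.length_flatMap]
  refine List.single_le_sum (by simp) _ ?_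
  rw [List.mem_map]
  exact ⟨gens.get i, List.get_mem _ _, rfl⟩

lemma mem_gensL (gens : Inp n) (g : List (Ltr n)) :
    g ∈ gensL gens ↔ ∃ x, ph (phi gens) x = g := by
  unfold gensL
  rw [List.mem_append, List.mem_map, List.mem_map]
  constructor
  · rintro (⟨a, ha, rfl⟩ | ⟨a, ha, rfl⟩)
    · obtain ⟨i, rfl⟩ := List.get_of_mem ha
      exact ⟨Sum.inl i, rfl⟩
    · obtain ⟨i, rfl⟩ := List.get_of_mem ha
      exact ⟨Sum.inr i, rfl⟩
  · rintro ⟨i | i, rfl⟩
    · exact Or.inl ⟨gens.get i, List.get_mem _ _, rfl⟩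
    · exact Or.inr ⟨gens.get i, List.get_mem _ _, rfl⟩

/-- the generating set in the free inverse semigroup -/
def genSet (gens : Inp n) : Set (FI (Fin n)) :=
  {x | ∃ g ∈ gens, x = ((FreeSemigroup.mk g.1 g.2 : FreeSemigroup (Fin n ⊕ Fin n)) : FI (Fin n)) ∨
    x = ((sinv (FreeSemigroup.mk g.1 g.2) : FreeSemigroup (Fin n ⊕ Fin n)) : FI (Fin n))}

lemma mem_genSet (gens : Inp n) (x : FI (Fin n)) : x ∈ genSet gens ↔
    ∃ y, x = ((ofL (ph (phi gens) y) (ph_ne_nil _ (phi_ne_nil gens) y) :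
      FreeSemigroup (Fin n ⊕ Fin n)) : FI (Fin n)) := by
  have h1 : ∀ i : Fin gens.length, ofL (ph (phi gens) (Sum.inl i))
      (ph_ne_nil _ (phi_ne_nil gens) (Sum.inl i)) =
      FreeSemigroup.mk (gens.get i).1 (gens.get i).2 := fun i => rfl
  have h2 : ∀ i : Fin gens.length, ofL (ph (phi gens) (Sum.inr i))
      (ph_ne_nil _ (phi_ne_nil gens) (Sum.inr i)) =
      sinv (FreeSemigroup.mk (gens.get i).1 (gens.get i).2) := by
    intro i
    apply tl_injective
    rw [tl_ofL, tl_sinv]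
    rfl
  constructor
  · rintro ⟨g, hg, h⟩
    obtain ⟨i, rfl⟩ := List.get_of_mem hg
    rcases h with rfl | rfl
    · exact ⟨Sum.inl i, by rw [h1]⟩
    · exact ⟨Sum.inr i, by rw [h2]⟩
  · rintro ⟨i | i, rfl⟩
    · exact ⟨gens.get i, List.get_mem _ _, Or.inl (by rw [h1])⟩
    · exact ⟨gens.get i, List.get_mem _ _, Or.inr (by rw [h2])⟩

theorem main_iff (gens : Inp n) :
    (∃ (m : ℕ) (R : List (FreeSemigroup (Fin m ⊕ Fin m) × FreeSemigroup (Fin m ⊕ Fin m))),
      Nonempty (Subsemigroup.closure (genSet gens) ≃* (conGen (pres R)).Quotient)) ↔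
      Dec gens := by
  have hρ := phi_length gens
  have hne := phi_ne_nil gens
  have hS := mem_closure_iff (phi gens) hne (genSet gens) (mem_genSet gens)
  have hchk := Chk_iff (phi gens) (gensL gens) (mem_gensL gens) (rhoL gens)
    (K0f n (2 * rhoL gens)) (nb n ((K0f n (2 * rhoL gens) + 2) * rhoL gens))
  have hDec : Dec gens ↔ Chk (phi gens) (rhoL gens) (K0f n (2 * rhoL gens))
      (nb n ((K0f n (2 * rhoL gens) + 2) * rhoL gens)) := by
    rw [hchk]; rfl
  rw [hDec]
  constructor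
  · rintro ⟨m, R, ⟨e⟩⟩
    obtain ⟨K, hK⟩ := fp_imp_BP (phi gens) hne hρ _ hS R e (2 * (2 * rhoL gens))
    have := thmC (r := 2 * rhoL gens) hρ (by omega) hK
    rw [Fintype.card_fin] at this
    intro p _ hp
    exact this p hp
  · intro h
    have := thmD (K := K0f n (2 * rhoL gens)) hρ (by rw [Fintype.card_fin]; exact h)
    obtain ⟨R, hR⟩ := BP_imp_fp (phi gens) hne hρ _ hS this
    exact ⟨_, R, hR⟩

end Pool.Agent.MP_d35c37
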