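import Pool.Agent.Lib.MP_d35c37_al.Quot

set_option autoImplicit false

open scoped Pointwise

namespace Pool.Agent.MP_d35c37

open FreeGroup

variable {α β : Type*}

/-- images of the letters -/
def ph (φ : β → List (α ⊕ α)) : β ⊕ β → List (α ⊕ α) :=
  Sum.elim φ (fun b => winv (φ b))

/-- substitution -/
def Ph (φ : β → List (α ⊕ α)) (p : List (β ⊕ β)) : List (α ⊕ α) := p.flatMap (ph φ)

/-- Munn tree of a word over the generators -/
def TT (φ : β → List (α ⊕ α)) (p : List (β ⊕ β)) : Set (FreeGroup α) := tr (Ph φ p)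

/-- group value of a word over the generators -/
def gg (φ : β → List (α ⊕ α)) (p : List (β ⊕ β)) : FreeGroup α := val (Ph φ p)

section basic

variable (φ : β → List (α ⊕ α))

lemma ph_swap (x : β ⊕ β) : ph φ x.swap = winv (ph φ x) := by
  rcases x with b | b <;> simp [ph]

@[simp] lemma Ph_nil : Ph φ [] = [] := rfl

@[simp] lemma Ph_append (p q : List (β ⊕ β)) : Ph φ (p ++ q) = Ph φ p ++ Ph φ q := by
  simp [Ph]

@[simp] lemma Ph_singleton (x : β ⊕ β) : Ph φ [x] = ph φ x := by simp [Ph]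

lemma Ph_cons (x : β ⊕ β) (p : List (β ⊕ β)) : Ph φ (x :: p) = ph φ x ++ Ph φ p := by
  simp [Ph]

lemma Ph_winv (p : List (β ⊕ β)) : Ph φ (winv p) = winv (Ph φ p) := by
  induction p with
  | nil => rfl
  | cons x p ih => rw [winv_cons, Ph_append, ih, Ph_singleton, ph_swap, Ph_cons, winv_append]

@[simp] lemma TT_nil : TT φ [] = {1} := rfl
@[simp] lemma gg_nil : gg φ [] = 1 := rfl

lemma TT_append (p q : List (β ⊕ β)) : TT φ (p ++ q) = TT φ p ∪ gg φ p • TT φ q := by
  simp [TT, gg, tr_append]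

@[simp] lemma gg_append (p q : List (β ⊕ β)) : gg φ (p ++ q) = gg φ p * gg φ q := by
  simp [gg]

lemma TT_cons (x : β ⊕ β) (q : List (β ⊕ β)) :
    TT φ (x :: q) = TT φ [x] ∪ gg φ [x] • TT φ q := TT_append φ [x] q

lemma gg_cons (x : β ⊕ β) (q : List (β ⊕ β)) : gg φ (x :: q) = gg φ [x] * gg φ q :=
  gg_append φ [x] q

@[simp] lemma gg_winv (p : List (β ⊕ β)) : gg φ (winv p) = (gg φ p)⁻¹ := by
  simp [gg, Ph_winv]

lemma TT_winv (p : List (β ⊕ β)) : TT φ (winv p) = (gg φ p)⁻¹ • TT φ p := by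
  simp [gg, TT, Ph_winv, tr_winv]

@[simp] lemma one_mem_TT (p : List (β ⊕ β)) : (1 : FreeGroup α) ∈ TT φ p := one_mem_tr _

lemma gg_mem_TT (p : List (β ⊕ β)) : gg φ p ∈ TT φ p := val_mem_tr _

lemma TT_finite (p : List (β ⊕ β)) : (TT φ p).Finite := tr_finite _

lemma exists_edge {z : FreeGroup α} : ∀ (s : List (β ⊕ β)) (v : FreeGroup α), s ≠ [] →
    z ∈ v • TT φ s → ∃ a x b, s = a ++ x :: b ∧ z ∈ (v * gg φ a) • TT φ [x]
  | [], _, h, _ => absurd rfl h
  | [x], v, _, h => ⟨[], x, [], rfl, by simpa using h⟩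
  | x :: y :: s, v, _, h => by
    rw [TT_cons, Set.smul_set_union, smul_smul] at h
    rcases h with h | h
    · exact ⟨[], x, y :: s, rfl, by simpa using h⟩
    · obtain ⟨a, x', b, e, h'⟩ := exists_edge (y :: s) _ (by simp) h
      refine ⟨x :: a, x', b, by rw [e]; rfl, ?_⟩
      rw [gg_cons, ← mul_assoc]
      exact h'

end basic

section main

variable [DecidableEq α] (φ : β → List (α ⊕ α))

omit [DecidableEq α] in
lemma ph_length_le {ρ : ℕ} (hρ : ∀ b, (φ b).length ≤ ρ) (x : β ⊕ β) : (ph φ x).length ≤ ρ := by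
  rcases x with b | b
  · exact hρ b
  · simpa [ph] using hρ b

omit [DecidableEq α] in
lemma Ph_length_le {ρ : ℕ} (hρ : ∀ b, (φ b).length ≤ ρ) (p : List (β ⊕ β)) :
    (Ph φ p).length ≤ p.length * ρ := by
  induction p with
  | nil => simp
  | cons x p ih =>
    rw [Ph_cons, List.length_append, List.length_cons, Nat.succ_mul]
    have := ph_length_le φ hρ x
    omega

lemma norm_of_mem_TT {ρ : ℕ} (hρ : ∀ b, (φ b).length ≤ ρ) {p : List (β ⊕ β)} {y : FreeGroup α}
    (hy : y ∈ TT φ p) : y.norm ≤ p.length * ρ :=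
  (norm_of_mem_tr hy).trans (Ph_length_le φ hρ p)

lemma dist_of_mem_TT {ρ : ℕ} (hρ : ∀ b, (φ b).length ≤ ρ) {p : List (β ⊕ β)} {x y : FreeGroup α}
    (hx : x ∈ TT φ p) (hy : y ∈ TT φ p) : (x⁻¹ * y).norm ≤ p.length * ρ :=
  (dist_of_mem_tr hx hy).trans (Ph_length_le φ hρ p)

lemma dist_of_mem_smul_TT {ρ : ℕ} (hρ : ∀ b, (φ b).length ≤ ρ) {p : List (β ⊕ β)}
    {v x y : FreeGroup α}
    (hx : x ∈ v • TT φ p) (hy : y ∈ v • TT φ p) : (x⁻¹ * y).norm ≤ p.length * ρ := by
  obtain ⟨x, hx, rfl⟩ := hx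
  obtain ⟨y, hy, rfl⟩ := hy
  have := dist_of_mem_TT φ hρ hx hy
  simpa [mul_assoc] using this

lemma dist_triangle (x y z : FreeGroup α) :
    (x⁻¹ * z).norm ≤ (x⁻¹ * y).norm + (y⁻¹ * z).norm := by
  have := norm_mul_le (x⁻¹ * y) (y⁻¹ * z)
  simpa [mul_assoc] using this

theorem main_ind {ρ K : ℕ} (hρ : ∀ b, (φ b).length ≤ ρ)
    (rel : List (β ⊕ β) → List (β ⊕ β) → Prop)
    (hrefl : ∀ p, rel p p) (htrans : ∀ p q s, rel p q → rel q s → rel p s)
    (happ : ∀ p q p' q', rel p p' → rel q q' → rel (p ++ q) (p' ++ q'))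
    (h0 : ∀ p q, rel p q → TT φ q ⊆ TT φ p ∧ gg φ q = gg φ p)
    (hbase : ∀ p, (∀ y ∈ TT φ p, y.norm ≤ (K + 2) * ρ) → (gg φ p).norm ≤ 2 * ρ →
      ∃ q, q.length ≤ K ∧ rel p q) :
    ∀ p, (gg φ p).norm ≤ 2 * ρ → ∃ q, q.length ≤ K ∧ rel p q := by
  intro p
  induction hℓ : p.length using Nat.strong_induction_on generalizing p with
  | _ ℓ IH =>
  intro hp
  obtain ⟨z, hz, hz1, hz2⟩ : ∃ z ∈ TT φ p, z.norm ≤ ρ ∧ (z⁻¹ * gg φ p).norm ≤ ρ := by
    refine ⟨val ((rwd (gg φ p)).take ρ), prefix_rwd_mem_tr _ _ (List.take_prefix _ _), ?_, ?_⟩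
    · exact (norm_val_le _).trans (by simp)
    · have e : gg φ p = val ((rwd (gg φ p)).take ρ) * val ((rwd (gg φ p)).drop ρ) := by
        rw [← val_append, List.take_append_drop, val_rwd]
      have : (val ((rwd (gg φ p)).take ρ))⁻¹ * gg φ p = val ((rwd (gg φ p)).drop ρ) := by
        rw [inv_mul_eq_iff_eq_mul]
        exact e
      rw [this]
      refine (norm_val_le _).trans ?_
      simp; omega
  have X : ∀ (n : ℕ) (s : List (β ⊕ β)) (v : FreeGroup α), s.length = n → s.length ≤ ℓ →
      (s.length < ℓ ∨ z ∈ v • TT φ s) → (v⁻¹ * z).norm ≤ ρ → (z⁻¹ * (v * gg φ s)).norm ≤ ρ →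
      ∃ q, rel s q ∧ ∀ y ∈ v • TT φ q, (z⁻¹ * y).norm ≤ (K + 1) * ρ := by
    intro n
    induction n using Nat.strong_induction_on with
    | _ n ihn =>
    intro s v hs hsl hor hv1 hv2
    by_cases hmem : z ∈ v • TT φ s
    · rcases eq_or_ne s [] with rfl | hne
      · refine ⟨[], hrefl _, ?_⟩
        intro y hy
        simp only [TT_nil, Set.smul_set_singleton, smul_eq_mul, mul_one,
          Set.mem_singleton_iff] at hy
        subst hy
        simp only [gg_nil, mul_one] at hv2
        exact hv2.trans (by nlinarith)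
      · obtain ⟨a, x, b, e, hx⟩ := exists_edge φ s v hne hmem
        have hlen : s.length = a.length + b.length + 1 := by rw [e]; simp; omega
        have hva : (v * gg φ a) ∈ (v * gg φ a) • TT φ [x] :=
          ⟨1, one_mem_TT _ _, by simp⟩
        have hvb : (v * gg φ a * gg φ [x]) ∈ (v * gg φ a) • TT φ [x] :=
          ⟨gg φ [x], gg_mem_TT _ _, rfl⟩
        have d1 : ((v * gg φ a)⁻¹ * z).norm ≤ ρ := by
          have := dist_of_mem_smul_TT φ hρ hva hx; simpa using this
        have d2 : ((v * gg φ a * gg φ [x])⁻¹ * z).norm ≤ ρ := by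
          have := dist_of_mem_smul_TT φ hρ hvb hx; simpa using this
        -- the piece before the edge
        obtain ⟨qa, qa1, qa2⟩ := IH a.length (by omega) a rfl (by
          have := dist_triangle v z (v * gg φ a)
          rw [inv_mul_cancel_left] at this
          rw [norm_inv_mul_comm] at d1
          omega)
        -- the piece after the edge
        obtain ⟨qb, qb1, qb2⟩ := ihn b.length (by omega) b (v * gg φ a * gg φ [x]) rfl (by omega)
          (Or.inl (by omega)) d2 (by
            have : v * gg φ a * gg φ [x] * gg φ b = v * gg φ s := by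
              rw [e, gg_append, gg_cons φ x b]; group
            rw [this]; exact hv2)
        obtain ⟨t1, t2⟩ := h0 _ _ qa2
        refine ⟨qa ++ x :: qb, ?_, ?_⟩
        · rw [e]
          exact happ _ _ _ _ qa2 (happ [x] b [x] qb (hrefl _) qb1)
        · intro y hy
          rw [TT_append, TT_cons φ x qb, Set.smul_set_union, Set.smul_set_union,
            Set.smul_set_union, smul_smul, smul_smul, smul_smul, t2] at hy
          rcases hy with hy | hy | hy
          · have h1 : v ∈ v • TT φ qa := ⟨1, one_mem_TT _ _, by simp⟩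
            have h2 := dist_of_mem_smul_TT φ hρ h1 hy
            have h3 := dist_triangle z v y
            rw [norm_inv_mul_comm] at hv1
            have h4 : qa.length * ρ ≤ K * ρ := Nat.mul_le_mul_right _ qa1
            rw [Nat.succ_mul]
            omega
          · have h2 := dist_of_mem_smul_TT φ hρ hx hy
            refine h2.trans ?_
            simp only [List.length_singleton]
            exact Nat.mul_le_mul_right _ (by omega)
          · exact qb2 y hy
    · have hlt : s.length < ℓ := by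
        rcases hor with h | h
        · exact h
        · exact absurd h hmem
      obtain ⟨q, q1, q2⟩ := IH s.length hlt s rfl (by
          have := dist_triangle v z (v * gg φ s)
          rw [inv_mul_cancel_left] at this
          omega)
      refine ⟨q, q2, ?_⟩
      intro y hy
      have h1 : v ∈ v • TT φ q := ⟨1, one_mem_TT _ _, by simp⟩
      have h2 := dist_of_mem_smul_TT φ hρ h1 hy
      have h3 := dist_triangle z v y
      rw [norm_inv_mul_comm] at hv1
      have h4 : q.length * ρ ≤ K * ρ := Nat.mul_le_mul_right _ q1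
      rw [Nat.succ_mul]
      omega
  obtain ⟨q', q1, q2⟩ := X p.length p 1 rfl (by omega) (Or.inr (by simpa using hz))
    (by simpa using hz1) (by simpa using hz2)
  obtain ⟨t1, t2⟩ := h0 _ _ q1
  obtain ⟨q, r1, r2⟩ := hbase q' (by
      intro y hy
      have h3 := dist_triangle 1 z y
      have h4 := q2 y (by simpa using hy)
      simp only [inv_one, one_mul] at h3
      have : (K + 2) * ρ = (K + 1) * ρ + ρ := by ring
      omega) (by rw [t2]; exact hp)
  exact ⟨q, r1, htrans _ _ _ q1 r2⟩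

end main

end Pool.Agent.MP_d35c37
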