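import Pool.Agent.Lib.MP_d35c37_al.ThmC

set_option autoImplicit false

open scoped Pointwise

namespace Pool.Agent.MP_d35c37

open FreeGroup

variable {α β γ : Type*}

/-- the free inverse semigroup -/
abbrev FI (α : Type*) : Type _ := (conGen (Wrel (β := α))).Quotient

/-- the substitution homomorphism -/
def Phh (φ : β → List (α ⊕ α)) (hne : ∀ b, φ b ≠ []) :
    FreeSemigroup (β ⊕ β) →ₙ* FreeSemigroup (α ⊕ α) :=
  FreeSemigroup.lift (fun x => ofL (ph φ x) (ph_ne_nil φ hne x))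

lemma tl_Phh (φ : β → List (α ⊕ α)) (hne : ∀ b, φ b ≠ []) (u : FreeSemigroup (β ⊕ β)) :
    tl (Phh φ hne u) = Ph φ (tl u) := by
  rw [Phh, tl_lift]
  simp [Ph]

lemma coe_Phh_eq_iff [DecidableEq α] (φ : β → List (α ⊕ α)) (hne : ∀ b, φ b ≠ [])
    (u v : FreeSemigroup (β ⊕ β)) :
    ((Phh φ hne u : FreeSemigroup (α ⊕ α)) : FI α) = (Phh φ hne v : FreeSemigroup (α ⊕ α)) ↔
      TT φ (tl u) = TT φ (tl v) ∧ gg φ (tl u) = gg φ (tl v) := by
  rw [munn_iff, tl_Phh, tl_Phh]; rfl

lemma inv_unique [DecidableEq α] (U V : FreeSemigroup (α ⊕ α))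
    (h1 : ((U * V * U : FreeSemigroup (α ⊕ α)) : FI α) = U)
    (h2 : ((V * U * V : FreeSemigroup (α ⊕ α)) : FI α) = V) :
    (V : FI α) = (sinv U : FreeSemigroup (α ⊕ α)) := by
  rw [munn_iff] at h1 h2 ⊢
  simp only [tl_mul, tr_append, val_append, tl_sinv, tr_winv, val_winv] at h1 h2 ⊢
  obtain ⟨a1, a2⟩ := h1
  obtain ⟨b1, b2⟩ := h2
  have hg : val (tl V) = (val (tl U))⁻¹ := by
    rw [eq_inv_iff_mul_eq_one]
    have : val (tl U) * (val (tl V) * val (tl U)) = val (tl U) * 1 := by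
      rw [← mul_assoc, a2, mul_one]
    exact mul_left_cancel this
  refine ⟨?_, hg⟩
  apply Set.Subset.antisymm
  · have h3 : val (tl U) • tr (tl V) ⊆ tr (tl U) := by
      rw [← a1]
      exact Set.subset_union_right.trans Set.subset_union_left |>.trans (by rw [a1])
    have := Set.smul_set_mono (a := (val (tl U))⁻¹) h3
    rwa [smul_smul, inv_mul_cancel, one_smul] at this
  · have h3 : val (tl V) • tr (tl U) ⊆ tr (tl V) := by
      conv_rhs => rw [← b1]
      exact Set.subset_union_right.trans Set.subset_union_left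
    rwa [hg] at h3

/-- the relation used for presentations -/
def pres (R : List (FreeSemigroup (γ ⊕ γ) × FreeSemigroup (γ ⊕ γ)))
    (u v : FreeSemigroup (γ ⊕ γ)) : Prop :=
  Wrel u v ∨ (u, v) ∈ R

theorem fp_imp_BP [DecidableEq α] [Finite α] [Finite β] (φ : β → List (α ⊕ α)) (hne : ∀ b, φ b ≠ [])
    {ρ : ℕ} (hρ : ∀ b, (φ b).length ≤ ρ)
    (S : Subsemigroup (FI α)) (hS : ∀ x, x ∈ S ↔ ∃ u, x = ((Phh φ hne u : FreeSemigroup (α ⊕ α)) : FI α))
    (R : List (FreeSemigroup (γ ⊕ γ) × FreeSemigroup (γ ⊕ γ)))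
    (e : S ≃* (conGen (pres R)).Quotient) (r0 : ℕ) : ∃ K, BP φ r0 K := by
  -- words for the new generators
  have h1 : ∀ y : γ ⊕ γ, ∃ u : FreeSemigroup (β ⊕ β),
      ((e.symm ((FreeSemigroup.of y : FreeSemigroup (γ ⊕ γ)) : (conGen (pres R)).Quotient) : S) :
        FI α) = ((Phh φ hne u : FreeSemigroup (α ⊕ α)) : FI α) := by
    intro y
    exact (hS _).1 (e.symm _).2
  choose uu huu using h1
  set θ : γ → List (β ⊕ β) := fun c => tl (uu (Sum.inl c)) with hθ
  have hθne : ∀ c, θ c ≠ [] := fun c => tl_ne_nil _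
  have hΘ : ∀ w : FreeSemigroup (γ ⊕ γ),
      ((e.symm (w : (conGen (pres R)).Quotient) : S) : FI α) =
        ((Phh φ hne (Phh θ hθne w) : FreeSemigroup (α ⊕ α)) : FI α) := by
    intro w
    induction w using FreeSemigroup.recOnMul with
    | ih1 y =>
      rcases y with c | c
      · rw [huu, coe_Phh_eq_iff]
        rw [tl_Phh]
        simp [ph, hθ]
      · have hi : sinv (FreeSemigroup.of (Sum.inl c : γ ⊕ γ)) = FreeSemigroup.of (Sum.inr c) := rfl
        have hi' : sinv (FreeSemigroup.of (Sum.inr c : γ ⊕ γ)) = FreeSemigroup.of (Sum.inl c) := rfl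
        have q1 := quot_R2 (pres R) (fun _ _ h => Or.inl h) (FreeSemigroup.of (Sum.inl c : γ ⊕ γ))
        have q2 := quot_R2 (pres R) (fun _ _ h => Or.inl h) (FreeSemigroup.of (Sum.inr c : γ ⊕ γ))
        rw [hi, Con.coe_mul, Con.coe_mul] at q1
        rw [hi', Con.coe_mul, Con.coe_mul] at q2
        have s1 := congrArg (fun x => ((e.symm x : S) : FI α)) q1
        have s2 := congrArg (fun x => ((e.symm x : S) : FI α)) q2
        simp only [_root_.map_mul, MulMemClass.coe_mul, huu] at s1 s2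
        rw [← Con.coe_mul, ← Con.coe_mul] at s1 s2
        have := inv_unique _ _ s1 s2
        rw [huu, this]
        rw [munn_iff]
        have : tl (sinv (Phh φ hne (uu (Sum.inl c)))) =
            tl (Phh φ hne (Phh θ hθne (FreeSemigroup.of (Sum.inr c)))) := by
          rw [tl_sinv, tl_Phh, tl_Phh, tl_Phh, tl_of, Ph_singleton, ← Ph_winv]
          rfl
        rw [this]
        exact ⟨rfl, rfl⟩
    | ih2 y w ih1 ih2 =>
      rw [Con.coe_mul, _root_.map_mul, MulMemClass.coe_mul, ih1, ih2, _root_.map_mul, _root_.map_mul, Con.coe_mul]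
  -- words for the old generators
  have h2 : ∀ x : β ⊕ β, ∃ w : FreeSemigroup (γ ⊕ γ),
      e ⟨((Phh φ hne (FreeSemigroup.of x) : FreeSemigroup (α ⊕ α)) : FI α), (hS _).2 ⟨_, rfl⟩⟩ =
        (w : (conGen (pres R)).Quotient) := by
    intro x
    induction e ⟨((Phh φ hne (FreeSemigroup.of x) : FreeSemigroup (α ⊕ α)) : FI α),
      (hS _).2 ⟨_, rfl⟩⟩ using Con.induction_on with
    | _ w => exact ⟨w, rfl⟩
  choose η hη using h2
  have hH : ∀ u : FreeSemigroup (β ⊕ β),
      e ⟨((Phh φ hne u : FreeSemigroup (α ⊕ α)) : FI α), (hS _).2 ⟨_, rfl⟩⟩ =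
        ((FreeSemigroup.lift η u : FreeSemigroup (γ ⊕ γ)) : (conGen (pres R)).Quotient) := by
    intro u
    induction u using FreeSemigroup.recOnMul with
    | ih1 x => exact hη x
    | ih2 x u ih1 ih2 =>
      have e1 : ((FreeSemigroup.lift η (FreeSemigroup.of x * u) : FreeSemigroup (γ ⊕ γ)) :
          (conGen (pres R)).Quotient) =
          ((FreeSemigroup.lift η (FreeSemigroup.of x) : FreeSemigroup (γ ⊕ γ)) :
          (conGen (pres R)).Quotient) * ((FreeSemigroup.lift η u : FreeSemigroup (γ ⊕ γ)) :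
          (conGen (pres R)).Quotient) := by
        rw [_root_.map_mul, Con.coe_mul]
      rw [e1, ← ih1, ← ih2, ← _root_.map_mul]
      congr 1
      apply Subtype.ext
      change ((Phh φ hne (FreeSemigroup.of x * u) : FreeSemigroup (α ⊕ α)) : FI α) = _
      rw [_root_.map_mul, Con.coe_mul]
      rfl
  obtain ⟨k1, hk1⟩ : ∃ k1, ∀ p ∈ R, (Ph θ (tl p.1)).length ≤ k1 := by
    refine ⟨(R.map fun p => (Ph θ (tl p.1)).length).sum, fun p hp => ?_⟩
    exact List.single_le_sum (by simp) _ (List.mem_map.2 ⟨p, hp, rfl⟩)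
  obtain ⟨k2, hk2⟩ : ∃ k2, ∀ x : β ⊕ β, (Ph θ (tl (η x))).length ≤ k2 := by
    obtain ⟨k2, hk2⟩ := (Set.finite_range fun x : β ⊕ β => (Ph θ (tl (η x))).length).bddAbove
    exact ⟨k2, fun x => hk2 ⟨x, rfl⟩⟩
  have hback : ∀ x : β ⊕ β, ((Phh φ hne (Phh θ hθne (η x)) : FreeSemigroup (α ⊕ α)) : FI α) =
      ((Phh φ hne (FreeSemigroup.of x) : FreeSemigroup (α ⊕ α)) : FI α) := by
    intro x
    rw [← hΘ, ← hη, MulEquiv.symm_apply_apply]
  refine thmA (φ := φ) (θ := θ) (η := η) (r := pres R) (k := k1 + k2) hρ ?_ ?_ ?_ ?_ ?_ r0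
  · rintro u v (h | h)
    · exact Or.inl h
    · right
      have e1 : (u : (conGen (pres R)).Quotient) = v :=
        (Con.eq _).2 (ConGen.Rel.of _ _ (Or.inr h))
      have e2 := hΘ u
      rw [e1, hΘ v, coe_Phh_eq_iff, tl_Phh, tl_Phh] at e2
      exact ⟨(hk1 _ h).trans (by omega), e2.1.symm, e2.2.symm⟩
  · intro x
    exact (hk2 x).trans (by omega)
  · intro x
    have := (coe_Phh_eq_iff φ hne _ _).1 (hback x)
    rw [tl_Phh] at this
    exact this.1
  · intro x
    have := (coe_Phh_eq_iff φ hne _ _).1 (hback x)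
    rw [tl_Phh] at this
    exact this.2
  · intro u v h3 h4
    have h5 := (coe_Phh_eq_iff φ hne u v).2 ⟨h3, h4⟩
    apply (Con.eq _).1
    rw [← hH, ← hH]
    congr 1
    exact Subtype.ext h5

theorem BP_imp_fp [DecidableEq α] [Finite α] [Finite β] (φ : β → List (α ⊕ α))
    (hne : ∀ b, φ b ≠ []) {ρ : ℕ} (hρ : ∀ b, (φ b).length ≤ ρ)
    (S : Subsemigroup (FI α)) (hS : ∀ x, x ∈ S ↔ ∃ u, x = ((Phh φ hne u : FreeSemigroup (α ⊕ α)) : FI α))
    {K : ℕ} (hBP : BP φ (2 * ρ) K) :
    ∃ R : List (FreeSemigroup (β ⊕ β) × FreeSemigroup (β ⊕ β)),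
      Nonempty (S ≃* (conGen (pres R)).Quotient) := by
  obtain ⟨k, hk⟩ := thmB hρ hne hBP
  have hfin : {u : FreeSemigroup (β ⊕ β) | (tl u).length ≤ k}.Finite := by
    have h : {l : List (β ⊕ β) | l.length ≤ k}.Finite := List.finite_length_le _ _
    exact Set.Finite.of_finite_image (f := tl) (h.subset (by
      rintro _ ⟨u, hu, rfl⟩; exact hu)) (fun x _ y _ hxy => tl_injective hxy)
  have hfin2 : {p : FreeSemigroup (β ⊕ β) × FreeSemigroup (β ⊕ β) | (tl p.1).length ≤ k ∧
      (tl p.2).length ≤ k ∧ TT φ (tl p.1) = TT φ (tl p.2) ∧ gg φ (tl p.1) = gg φ (tl p.2)}.Finite :=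
    (hfin.prod hfin).subset (fun p hp => ⟨hp.1, hp.2.1⟩)
  refine ⟨hfin2.toFinset.toList, ⟨?_⟩⟩
  set R := hfin2.toFinset.toList with hR
  have hRmem : ∀ p, p ∈ R ↔ ((tl p.1).length ≤ k ∧
      (tl p.2).length ≤ k ∧ TT φ (tl p.1) = TT φ (tl p.2) ∧ gg φ (tl p.1) = gg φ (tl p.2)) := by
    intro p; rw [hR]; simp
  have hker : ∀ u v : FreeSemigroup (β ⊕ β), conGen (pres R) u v ↔
      ((Phh φ hne u : FreeSemigroup (α ⊕ α)) : FI α) = (Phh φ hne v : FreeSemigroup (α ⊕ α)) := by
    intro u v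
    rw [coe_Phh_eq_iff]
    constructor
    · intro h
      change ConGen.Rel (pres R) u v at h
      induction h with
      | of u v h =>
        rcases h with (⟨w, rfl, rfl⟩ | ⟨w, w', rfl, rfl⟩) | h
        · simp only [tl_mul, tl_sinv]
          exact ⟨by rw [TT_append, TT_mul_winv, gg_mul_winv, one_smul, Set.union_self],
            by rw [gg_append, gg_mul_winv, one_mul]⟩
        · simp only [tl_mul, tl_sinv]
          exact ⟨by rw [TT_append, TT_mul_winv, gg_mul_winv, one_smul, TT_mul_winv, TT_append,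
              TT_mul_winv, gg_mul_winv, one_smul, TT_mul_winv, Set.union_comm],
            by rw [gg_append, gg_mul_winv, gg_mul_winv, gg_append, gg_mul_winv, gg_mul_winv]⟩
        · exact ((hRmem _).1 h).2.2
      | refl => exact ⟨rfl, rfl⟩
      | symm _ ih => exact ⟨ih.1.symm, ih.2.symm⟩
      | trans _ _ ih1 ih2 => exact ⟨ih1.1.trans ih2.1, ih1.2.trans ih2.2⟩
      | mul _ _ ih1 ih2 =>
        simp only [tl_mul, TT_append, gg_append, ih1.1, ih1.2, ih2.1, ih2.2, and_self]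
    · rintro ⟨h1, h2⟩
      exact (Con.eq _).1 (hk (pres R) (fun _ _ h => Or.inl h)
        (fun u v a1 a2 a3 a4 => Or.inr ((hRmem (u, v)).2 ⟨a1, a2, a3, a4⟩)) u v h1 h2)
  let F : (conGen (pres R)).Quotient →ₙ* S :=
    { toFun := fun q => Con.liftOn q
        (fun u => (⟨((Phh φ hne u : FreeSemigroup (α ⊕ α)) : FI α), (hS _).2 ⟨_, rfl⟩⟩ : S))
        (fun u v h => Subtype.ext ((hker u v).1 h))
      map_mul' := by
        intro x y
        induction x using Con.induction_on with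
        | _ x =>
        induction y using Con.induction_on with
        | _ y =>
        apply Subtype.ext
        change ((Phh φ hne (x * y) : FreeSemigroup (α ⊕ α)) : FI α) = _
        rw [_root_.map_mul, Con.coe_mul]
        rfl }
  have hF : Function.Bijective F := by
    constructor
    · intro x y
      induction x using Con.induction_on with
      | _ x =>
      induction y using Con.induction_on with
      | _ y =>
      intro h
      exact (Con.eq _).2 ((hker x y).2 (congrArg Subtype.val h))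
    · rintro ⟨x, hx⟩
      obtain ⟨u, hu⟩ := (hS x).1 hx
      exact ⟨(u : (conGen (pres R)).Quotient), Subtype.ext hu.symm⟩
  exact (MulEquiv.ofBijective F hF).symm

end Pool.Agent.MP_d35c37
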