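import Pool.Agent.Lib.MP_d35c37_al.Act

set_option autoImplicit false

open scoped Pointwise

namespace Pool.Agent.MP_d35c37

open FreeGroup

section lists

variable {X : Type*}

/-- the word of an element of the free semigroup, as a list -/
def tl (w : FreeSemigroup X) : List X := w.head :: w.tail

@[simp] lemma tl_mul (u v : FreeSemigroup X) : tl (u * v) = tl u ++ tl v := rfl

@[simp] lemma tl_of (a : X) : tl (FreeSemigroup.of a) = [a] := rfl

lemma tl_ne_nil (w : FreeSemigroup X) : tl w ≠ [] := by simp [tl]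

lemma tl_injective : Function.Injective (tl : FreeSemigroup X → List X) := by
  rintro ⟨a, l⟩ ⟨b, k⟩ h
  simp only [tl, List.cons.injEq] at h
  obtain ⟨rfl, rfl⟩ := h
  rfl

/-- nonempty list as an element of the free semigroup -/
def ofL (l : List X) (h : l ≠ []) : FreeSemigroup X := ⟨l.head h, l.tail⟩

@[simp] lemma tl_ofL (l : List X) (h : l ≠ []) : tl (ofL l h) = l := by
  simp [tl, ofL]

lemma exists_tl {l : List X} (h : l ≠ []) : ∃ u : FreeSemigroup X, tl u = l := ⟨ofL l h, by simp⟩

end lists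

variable {β : Type*}

/-- formal inverse -/
def sinv (w : FreeSemigroup (β ⊕ β)) : FreeSemigroup (β ⊕ β) :=
  MulOpposite.unop (FreeSemigroup.lift (fun a : β ⊕ β => MulOpposite.op (FreeSemigroup.of a.swap)) w)

lemma tl_sinv (w : FreeSemigroup (β ⊕ β)) : tl (sinv w) = winv (tl w) := by
  induction w using FreeSemigroup.recOnMul with
  | ih1 a => rfl
  | ih2 a u _ ih =>
    rw [tl_mul, winv_append, ← ih]
    simp [sinv]

/-- the defining relations of inverse semigroups -/
def Wrel (u v : FreeSemigroup (β ⊕ β)) : Prop :=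
  (∃ w, u = w * sinv w * w ∧ v = w) ∨
    ∃ w w', u = w * sinv w * (w' * sinv w') ∧ v = w' * sinv w' * (w * sinv w)

section quot

variable (r : FreeSemigroup (β ⊕ β) → FreeSemigroup (β ⊕ β) → Prop)
  (hW : ∀ u v, Wrel u v → r u v)

/-- the right action on the quotient -/
def qact (m : (conGen r).Quotient) (w : List (β ⊕ β)) : (conGen r).Quotient :=
  w.foldl (fun m c => m * ((FreeSemigroup.of c : FreeSemigroup (β ⊕ β)) : (conGen r).Quotient)) m

lemma qact_append (m : (conGen r).Quotient) (u v : List (β ⊕ β)) :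
    qact r m (u ++ v) = qact r (qact r m u) v := by
  simp [qact, List.foldl_append]

lemma qact_tl (m : (conGen r).Quotient) (u : FreeSemigroup (β ⊕ β)) :
    qact r m (tl u) = m * (u : (conGen r).Quotient) := by
  induction u using FreeSemigroup.recOnMul generalizing m with
  | ih1 a => rfl
  | ih2 a u _ ih =>
    rw [tl_mul, qact_append, ih]
    rw [tl_of, Con.coe_mul, ← mul_assoc]
    rfl

include hW

lemma quot_R2 (u : FreeSemigroup (β ⊕ β)) :
    ((u * sinv u * u : FreeSemigroup (β ⊕ β)) : (conGen r).Quotient) = u :=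
  (Con.eq _).2 (ConGen.Rel.of _ _ (hW _ _ (Or.inl ⟨u, rfl, rfl⟩)))

lemma quot_R3 (u v : FreeSemigroup (β ⊕ β)) :
    ((u * sinv u * (v * sinv v) : FreeSemigroup (β ⊕ β)) : (conGen r).Quotient) =
      ((v * sinv v * (u * sinv u) : FreeSemigroup (β ⊕ β)) : (conGen r).Quotient) :=
  (Con.eq _).2 (ConGen.Rel.of _ _ (hW _ _ (Or.inr ⟨u, v, rfl, rfl⟩)))

/-- the quotient of the free semigroup by a congruence containing the inverse semigroup laws -/
def quotAct : InvAct β (conGen r).Quotient where
  act := qact r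
  act_nil := fun m => rfl
  act_append := qact_append r
  R2 := by
    intro m w
    rcases eq_or_ne w [] with rfl | h
    · rfl
    · obtain ⟨u, rfl⟩ := exists_tl h
      rw [← tl_sinv, qact_tl, qact_tl, qact_tl, mul_assoc, mul_assoc, ← mul_assoc (u : (conGen r).Quotient),
        ← Con.coe_mul, ← Con.coe_mul, quot_R2 r hW]
  R3 := by
    intro m w z
    rcases eq_or_ne w [] with rfl | h
    · rfl
    rcases eq_or_ne z [] with rfl | h'
    · rfl
    obtain ⟨u, rfl⟩ := exists_tl h
    obtain ⟨v, rfl⟩ := exists_tl h'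
    simp only [← tl_sinv, qact_tl, mul_assoc]
    congr 1
    have := quot_R3 r hW u v
    simpa only [Con.coe_mul, mul_assoc] using this

lemma eq_of_act (u v : FreeSemigroup (β ⊕ β))
    (h : ∀ E, (quotAct r hW).Rd E (tl u) →
      (quotAct r hW).Rd E (tl v) ∧ (quotAct r hW).act E (tl v) = (quotAct r hW).act E (tl u))
    (h' : ∀ E, (quotAct r hW).Rd E (tl v) →
      (quotAct r hW).Rd E (tl u) ∧ (quotAct r hW).act E (tl u) = (quotAct r hW).act E (tl v)) :
    (u : (conGen r).Quotient) = v := by
  have key : ∀ u : FreeSemigroup (β ⊕ β),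
      (quotAct r hW).Rd ((u * sinv u : FreeSemigroup (β ⊕ β)) : (conGen r).Quotient) (tl u) := by
    intro u
    show qact r (qact r _ (tl u)) (winv (tl u)) = _
    rw [← tl_sinv, qact_tl, qact_tl, ← Con.coe_mul, quot_R2 r hW, ← Con.coe_mul]
  have hu := (h _ (key u))
  have hv := (h' _ (key v))
  have a1 : ((u * sinv u : FreeSemigroup (β ⊕ β)) : (conGen r).Quotient) *
      ((v * sinv v : FreeSemigroup (β ⊕ β)) : (conGen r).Quotient) =
      ((u * sinv u : FreeSemigroup (β ⊕ β)) : (conGen r).Quotient) := by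
    have := hu.1
    change qact r (qact r _ (tl v)) (winv (tl v)) = _ at this
    rw [← tl_sinv, qact_tl, qact_tl] at this
    rw [Con.coe_mul v, ← mul_assoc]
    exact this
  have a2 : ((v * sinv v : FreeSemigroup (β ⊕ β)) : (conGen r).Quotient) *
      ((u * sinv u : FreeSemigroup (β ⊕ β)) : (conGen r).Quotient) =
      ((v * sinv v : FreeSemigroup (β ⊕ β)) : (conGen r).Quotient) := by
    have := hv.1
    change qact r (qact r _ (tl u)) (winv (tl u)) = _ at this
    rw [← tl_sinv, qact_tl, qact_tl] at this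
    rw [Con.coe_mul u, ← mul_assoc]
    exact this
  have a3 : ((u * sinv u : FreeSemigroup (β ⊕ β)) : (conGen r).Quotient) =
      ((v * sinv v : FreeSemigroup (β ⊕ β)) : (conGen r).Quotient) := by
    have c1 := quot_R3 r hW u v
    rw [Con.coe_mul (u * sinv u), Con.coe_mul (v * sinv v), a1, a2] at c1
    exact c1
  have b1 : (u : (conGen r).Quotient) =
      ((u * sinv u : FreeSemigroup (β ⊕ β)) : (conGen r).Quotient) * u := by
    rw [← Con.coe_mul, quot_R2 r hW]
  have b2 : (v : (conGen r).Quotient) =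
      ((v * sinv v : FreeSemigroup (β ⊕ β)) : (conGen r).Quotient) * v := by
    rw [← Con.coe_mul, quot_R2 r hW]
  have b3 := hu.2
  change qact r _ (tl v) = qact r _ (tl u) at b3
  rw [qact_tl, qact_tl] at b3
  rw [b1, ← b3, a3, ← b2]

end quot

/-- Munn's theorem: completeness -/
theorem munn_complete [DecidableEq β] (r : FreeSemigroup (β ⊕ β) → FreeSemigroup (β ⊕ β) → Prop)
    (hW : ∀ u v, Wrel u v → r u v) (u v : FreeSemigroup (β ⊕ β))
    (htr : tr (tl u) = tr (tl v)) (hval : val (tl u) = val (tl v)) :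
    (u : (conGen r).Quotient) = v := by
  apply eq_of_act r hW
  · intro E hE
    exact ⟨hE.munn _ htr.ge, hE.munn_act _ htr.ge hval.symm⟩
  · intro E hE
    exact ⟨hE.munn _ htr.le, hE.munn_act _ htr.le hval⟩

/-- Munn's theorem: soundness -/
theorem munn_sound {u v : FreeSemigroup (β ⊕ β)} (h : conGen Wrel u v) :
    tr (tl u) = tr (tl v) ∧ val (tl u) = val (tl v) := by
  change ConGen.Rel Wrel u v at h
  induction h with
  | of u v h =>
    rcases h with ⟨w, rfl, rfl⟩ | ⟨w, w', rfl, rfl⟩
    · simp only [tl_mul, tl_sinv, tr_append, tr_winv, val_append, val_winv, mul_inv_cancel,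
        one_mul, one_smul, smul_smul, Set.union_self, and_self]
    · simp only [tl_mul, tl_sinv, tr_append, tr_winv, val_append, val_winv, mul_inv_cancel,
        one_smul, smul_smul, Set.union_self, and_true, mul_one]
      rw [Set.union_comm]
  | refl => exact ⟨rfl, rfl⟩
  | symm _ ih => exact ⟨ih.1.symm, ih.2.symm⟩
  | trans _ _ ih1 ih2 => exact ⟨ih1.1.trans ih2.1, ih1.2.trans ih2.2⟩
  | mul _ _ ih1 ih2 =>
    simp only [tl_mul, tr_append, val_append, ih1.1, ih1.2, ih2.1, ih2.2, and_self]

theorem munn_iff [DecidableEq β] (u v : FreeSemigroup (β ⊕ β)) :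
    (u : (conGen (Wrel (β := β))).Quotient) = v ↔
      tr (tl u) = tr (tl v) ∧ val (tl u) = val (tl v) :=
  ⟨fun h => munn_sound ((Con.eq _).1 h), fun h => munn_complete _ (fun _ _ h => h) u v h.1 h.2⟩

end Pool.Agent.MP_d35c37
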