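import Pool.Agent.Lib.MP_d35c37_al.ThmB

set_option autoImplicit false

open scoped Pointwise

namespace Pool.Agent.MP_d35c37

open FreeGroup

lemma tl_lift {X Y : Type*} (f : X → FreeSemigroup Y) (u : FreeSemigroup X) :
    tl (FreeSemigroup.lift f u) = (tl u).flatMap (fun x => tl (f x)) := by
  induction u using FreeSemigroup.recOnMul with
  | ih1 a => simp
  | ih2 a u _ ih => rw [_root_.map_mul, tl_mul, ih, tl_mul, List.flatMap_append]; simp

variable {α β γ : Type*}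

section sums

open Classical in
/-- indicator function -/
noncomputable def ind (A : Set (FreeGroup α)) (h : FreeGroup α) : ℤ := if h ∈ A then 1 else 0

open Classical in
/-- the cost of an edge -/
noncomputable def cst (φ : β → List (α ⊕ α)) (A P : Set (FreeGroup α)) (h : FreeGroup α)
    (x : β ⊕ β) : ℤ :=
  if h • TT φ [x] ⊆ P then ind A (h * gg φ [x]) - ind A h else 0

/-- the sum of costs along a path -/
noncomputable def sm (φ : β → List (α ⊕ α)) (A P : Set (FreeGroup α)) :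
    FreeGroup α → List (β ⊕ β) → ℤ
  | _, [] => 0
  | h, x :: q => cst φ A P h x + sm φ A P (h * gg φ [x]) q

variable {φ : β → List (α ⊕ α)} {A P : Set (FreeGroup α)}

lemma sm_nil (h : FreeGroup α) : sm φ A P h [] = 0 := rfl

lemma sm_cons (h : FreeGroup α) (x : β ⊕ β) (q : List (β ⊕ β)) :
    sm φ A P h (x :: q) = cst φ A P h x + sm φ A P (h * gg φ [x]) q := rfl

lemma sm_append (u v : List (β ⊕ β)) : ∀ h : FreeGroup α,
    sm φ A P h (u ++ v) = sm φ A P h u + sm φ A P (h * gg φ u) v := by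
  induction u with
  | nil => intro h; simp [sm_nil]
  | cons x u ih =>
    intro h
    rw [List.cons_append, sm_cons, ih, sm_cons, gg_cons φ x u, ← mul_assoc]
    ring

lemma cst_swap (h : FreeGroup α) (x : β ⊕ β) :
    cst φ A P (h * gg φ [x]) x.swap = - cst φ A P h x := by
  have h1 : TT φ [x.swap] = (gg φ [x])⁻¹ • TT φ [x] := TT_winv φ [x]
  have h2 : gg φ [x.swap] = (gg φ [x])⁻¹ := gg_winv φ [x]
  unfold cst
  rw [h1, h2, smul_smul, mul_inv_cancel_right]
  split_ifs <;> ring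

lemma sm_winv (u : List (β ⊕ β)) : ∀ h : FreeGroup α,
    sm φ A P (h * gg φ u) (winv u) = - sm φ A P h u := by
  induction u with
  | nil => intro h; simp [sm_nil]
  | cons x u ih =>
    intro h
    rw [winv_cons, sm_append, gg_cons φ x u, ← mul_assoc, ih, sm_cons, sm_cons, sm_nil, gg_winv,
      mul_inv_cancel_right, cst_swap]
    ring

lemma sm_winv' (u : List (β ⊕ β)) (h h' : FreeGroup α) (e : h' = h * gg φ u) :
    sm φ A P h' (winv u) = - sm φ A P h u := by
  rw [e, sm_winv]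

lemma sm_telescope (u : List (β ⊕ β)) : ∀ h : FreeGroup α, h • TT φ u ⊆ P →
    sm φ A P h u = ind A (h * gg φ u) - ind A h := by
  induction u with
  | nil => intro h _; simp [sm_nil]
  | cons x u ih =>
    intro h hP
    rw [TT_cons φ x u, Set.smul_set_union, Set.union_subset_iff, smul_smul] at hP
    rw [sm_cons, ih _ hP.2, cst, if_pos hP.1, gg_cons φ x u, ← mul_assoc]
    ring

lemma sm_zero {N : Set (FreeGroup α)}
    (hN : ∀ (h : FreeGroup α) (x : β ⊕ β), h ∈ N → h * gg φ [x] ∈ N → h • TT φ [x] ⊆ P →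
      (h ∈ A ↔ h * gg φ [x] ∈ A)) (u : List (β ⊕ β)) : ∀ h : FreeGroup α, h • TT φ u ⊆ N →
    sm φ A P h u = 0 := by
  induction u with
  | nil => intro h _; rfl
  | cons x u ih =>
    intro h hu
    rw [TT_cons φ x u, Set.smul_set_union, Set.union_subset_iff, smul_smul] at hu
    rw [sm_cons, ih _ hu.2, add_zero, cst]
    split_ifs with hx
    · have := hN h x (hu.1 ⟨1, one_mem_TT _ _, by simp⟩) (hu.1 ⟨_, gg_mem_TT φ [x], rfl⟩) hx
      unfold ind
      by_cases hA : h ∈ A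
      · rw [if_pos hA, if_pos (this.1 hA)]; ring
      · rw [if_neg hA, if_neg (fun h' => hA (this.2 h'))]; ring
    · rfl

end sums

section inv

variable [DecidableEq α] {φ : β → List (α ⊕ α)} {A P : Set (FreeGroup α)}

/-- bounded relations preserve the sums -/
lemma sm_bounded {ρ k : ℕ} (hρ : ∀ b, (φ b).length ≤ ρ) {z : List (β ⊕ β)}
    (hN : ∀ (h : FreeGroup α) (x : β ⊕ β), h.norm ≤ (z.length + k) * ρ →
      (h * gg φ [x]).norm ≤ (z.length + k) * ρ → h • TT φ [x] ⊆ P →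
      (h ∈ A ↔ h * gg φ [x] ∈ A)) (a b : List (β ⊕ β)) (ha : a.length ≤ k)
    (hT : TT φ a = TT φ b) (hg : gg φ a = gg φ b) (h : FreeGroup α)
    (hh : h • TT φ a ⊆ P ∪ TT φ z) : sm φ A P h a = sm φ A P h b := by
  by_cases hP : h • TT φ a ⊆ P
  · rw [sm_telescope _ _ hP, sm_telescope _ _ (by rwa [← hT]), hg]
  · obtain ⟨t, ht, htP⟩ := Set.not_subset.1 hP
    have htz : t ∈ TT φ z := (hh ht).resolve_left htP
    have hsub : h • TT φ a ⊆ {y | y.norm ≤ (z.length + k) * ρ} := by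
      intro y hy
      have h1 := dist_of_mem_smul_TT φ hρ ht hy
      have h2 := norm_of_mem_TT φ hρ htz
      have h3 := dist_triangle 1 t y
      simp only [inv_one, one_mul] at h3
      have h4 : a.length * ρ ≤ k * ρ := Nat.mul_le_mul_right _ ha
      show y.norm ≤ _
      rw [Nat.add_mul]
      omega
    rw [sm_zero (N := {y | y.norm ≤ (z.length + k) * ρ}) hN a h hsub,
      sm_zero (N := {y | y.norm ≤ (z.length + k) * ρ}) hN b h (by rw [← hT]; exact hsub)]

variable {θ : γ → List (β ⊕ β)} {η : β ⊕ β → FreeSemigroup (γ ⊕ γ)}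
  {r : FreeSemigroup (γ ⊕ γ) → FreeSemigroup (γ ⊕ γ) → Prop}

/-- the invariant -/
lemma sm_invariant {ρ k : ℕ} (hρ : ∀ b, (φ b).length ≤ ρ) {z : List (β ⊕ β)}
    (hN : ∀ (h : FreeGroup α) (x : β ⊕ β), h.norm ≤ (z.length + k) * ρ →
      (h * gg φ [x]).norm ≤ (z.length + k) * ρ → h • TT φ [x] ⊆ P →
      (h ∈ A ↔ h * gg φ [x] ∈ A))
    (hr : ∀ u v, r u v → Wrel u v ∨ ((Ph θ (tl u)).length ≤ k ∧
      TT φ (Ph θ (tl u)) = TT φ (Ph θ (tl v)) ∧ gg φ (Ph θ (tl u)) = gg φ (Ph θ (tl v))))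
    {u v : FreeSemigroup (γ ⊕ γ)} (huv : conGen r u v) :
    TT φ (Ph θ (tl u)) = TT φ (Ph θ (tl v)) ∧ gg φ (Ph θ (tl u)) = gg φ (Ph θ (tl v)) ∧
      ∀ h : FreeGroup α, h • TT φ (Ph θ (tl u)) ⊆ P ∪ TT φ z →
        sm φ A P h (Ph θ (tl u)) = sm φ A P h (Ph θ (tl v)) := by
  change ConGen.Rel r u v at huv
  induction huv with
  | of u v h =>
    rcases hr u v h with (⟨w, rfl, rfl⟩ | ⟨w, w', rfl, rfl⟩) | ⟨h1, h2, h3⟩
    · simp only [tl_mul, tl_sinv, Ph_append, Ph_winv]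
      refine ⟨?_, ?_, ?_⟩
      · rw [TT_append, TT_mul_winv, gg_mul_winv, one_smul, Set.union_self]
      · rw [gg_append, gg_mul_winv, one_mul]
      · intro h _
        rw [sm_append, sm_append, sm_winv, gg_mul_winv, mul_one]
        ring
    · simp only [tl_mul, tl_sinv, Ph_append, Ph_winv]
      refine ⟨?_, ?_, ?_⟩
      · rw [TT_append, TT_mul_winv, gg_mul_winv, one_smul, TT_mul_winv, TT_append, TT_mul_winv,
          gg_mul_winv, one_smul, TT_mul_winv, Set.union_comm]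
      · rw [gg_append, gg_mul_winv, gg_mul_winv, gg_append, gg_mul_winv, gg_mul_winv]
      · intro h _
        rw [sm_append, sm_append, sm_winv, gg_mul_winv, mul_one, sm_append, sm_winv,
          sm_append, sm_append, sm_winv, gg_mul_winv, mul_one, sm_append, sm_winv]
        ring
    · exact ⟨h2, h3, fun h hh => sm_bounded hρ hN _ _ h1 h2 h3 h hh⟩
  | refl => exact ⟨rfl, rfl, fun _ _ => rfl⟩
  | symm _ ih => exact ⟨ih.1.symm, ih.2.1.symm, fun h hh => (ih.2.2 h (by rwa [ih.1])).symm⟩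
  | trans _ _ ih1 ih2 =>
    exact ⟨ih1.1.trans ih2.1, ih1.2.1.trans ih2.2.1, fun h hh =>
      (ih1.2.2 h hh).trans (ih2.2.2 h (by rwa [← ih1.1]))⟩
  | mul _ _ ih1 ih2 =>
    simp only [tl_mul, Ph_append]
    refine ⟨?_, ?_, ?_⟩
    · rw [TT_append, TT_append, ih1.1, ih1.2.1, ih2.1]
    · rw [gg_append, gg_append, ih1.2.1, ih2.2.1]
    · intro h hh
      rw [TT_append, Set.smul_set_union, Set.union_subset_iff, smul_smul] at hh
      rw [sm_append, sm_append, ih1.2.2 h hh.1, ih2.2.2 _ hh.2, ih1.2.1]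

omit [DecidableEq α] in
lemma sub_gg (hη2 : ∀ x, gg φ (Ph θ (tl (η x))) = gg φ [x]) (u : List (β ⊕ β)) :
    gg φ (Ph θ (u.flatMap fun x => tl (η x))) = gg φ u := by
  induction u with
  | nil => rfl
  | cons x u ih =>
    rw [List.flatMap_cons, Ph_append, gg_append, hη2, ih, gg_cons φ x u]

omit [DecidableEq α] in
lemma sub_TT (hη1 : ∀ x, TT φ (Ph θ (tl (η x))) = TT φ [x])
    (hη2 : ∀ x, gg φ (Ph θ (tl (η x))) = gg φ [x]) (u : List (β ⊕ β)) :
    TT φ (Ph θ (u.flatMap fun x => tl (η x))) = TT φ u := by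
  induction u with
  | nil => rfl
  | cons x u ih =>
    rw [List.flatMap_cons, Ph_append, TT_append, hη2, ih, hη1, TT_cons φ x u]

lemma sub_sm {ρ k : ℕ} (hρ : ∀ b, (φ b).length ≤ ρ) {z : List (β ⊕ β)}
    (hN : ∀ (h : FreeGroup α) (x : β ⊕ β), h.norm ≤ (z.length + k) * ρ →
      (h * gg φ [x]).norm ≤ (z.length + k) * ρ → h • TT φ [x] ⊆ P →
      (h ∈ A ↔ h * gg φ [x] ∈ A))
    (hη0 : ∀ x, (Ph θ (tl (η x))).length ≤ k)
    (hη1 : ∀ x, TT φ (Ph θ (tl (η x))) = TT φ [x])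
    (hη2 : ∀ x, gg φ (Ph θ (tl (η x))) = gg φ [x]) (u : List (β ⊕ β)) :
    ∀ h : FreeGroup α, h • TT φ u ⊆ P ∪ TT φ z →
    sm φ A P h (Ph θ (u.flatMap fun x => tl (η x))) = sm φ A P h u := by
  induction u with
  | nil => intro h _; rfl
  | cons x u ih =>
    intro h hh
    rw [TT_cons φ x u, Set.smul_set_union, Set.union_subset_iff, smul_smul] at hh
    rw [List.flatMap_cons, Ph_append, sm_append, hη2, ih _ hh.2, sm_cons,
      sm_bounded hρ hN _ [x] (hη0 x) (hη1 x) (hη2 x) h (by rw [hη1]; exact hh.1)]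
    simp [sm_cons, sm_nil]

end inv

/-- Theorem A : a finite presentation gives the bounded path property -/
theorem thmA [DecidableEq α] [Finite α] {φ : β → List (α ⊕ α)} {ρ k : ℕ}
    (hρ : ∀ b, (φ b).length ≤ ρ)
    {θ : γ → List (β ⊕ β)} {η : β ⊕ β → FreeSemigroup (γ ⊕ γ)}
    {r : FreeSemigroup (γ ⊕ γ) → FreeSemigroup (γ ⊕ γ) → Prop}
    (hr : ∀ u v, r u v → Wrel u v ∨ ((Ph θ (tl u)).length ≤ k ∧
      TT φ (Ph θ (tl u)) = TT φ (Ph θ (tl v)) ∧ gg φ (Ph θ (tl u)) = gg φ (Ph θ (tl v))))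
    (hη0 : ∀ x, (Ph θ (tl (η x))).length ≤ k)
    (hη1 : ∀ x, TT φ (Ph θ (tl (η x))) = TT φ [x])
    (hη2 : ∀ x, gg φ (Ph θ (tl (η x))) = gg φ [x])
    (hη3 : ∀ u v : FreeSemigroup (β ⊕ β), TT φ (tl u) = TT φ (tl v) → gg φ (tl u) = gg φ (tl v) →
      conGen r (FreeSemigroup.lift η u) (FreeSemigroup.lift η v))
    (r0 : ℕ) : ∃ K, BP φ r0 K := by
  obtain ⟨K1, hK1⟩ := exists_rep_bound (fun w : List (β ⊕ β) => w.length)
    {p | (gg φ p).norm ≤ r0} (fun p => gg φ p) (by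
      refine (ball_finite (α := α) r0).subset ?_
      rintro _ ⟨p, hp, rfl⟩
      exact hp)
  obtain ⟨R2, hR2⟩ : ∃ R2, R2 = (K1 + k) * ρ := ⟨_, rfl⟩
  have hfin := ball_finite (α := α) R2
  refine ⟨{g : FreeGroup α | g.norm ≤ R2}.ncard, ?_⟩
  intro p hp
  obtain ⟨z, _, hz1, hz2⟩ := hK1 p hp
  -- balls in the graph
  let Aj : ℕ → Set (FreeGroup α) := fun j => {h | ∃ q : List (β ⊕ β), q.length ≤ j ∧ gg φ q = h ∧
    TT φ q ⊆ TT φ p}
  have hmono : ∀ j, Aj j ⊆ Aj (j + 1) := by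
    rintro j h ⟨q, q1, q2, q3⟩
    exact ⟨q, by omega, q2, q3⟩
  obtain ⟨M, hM, hM'⟩ : ∃ M ≤ {g : FreeGroup α | g.norm ≤ R2}.ncard,
      Aj (M + 1) ∩ {g | g.norm ≤ R2} ⊆ Aj M := by
    by_contra hcon
    push Not at hcon
    have key : ∀ j, j ≤ {g : FreeGroup α | g.norm ≤ R2}.ncard + 1 →
        j ≤ (Aj j ∩ {g | g.norm ≤ R2}).ncard := by
      intro j
      induction j with
      | zero => intro _; exact Nat.zero_le _
      | succ j ih =>
        intro hj
        have h1 := ih (by omega)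
        have h2 : (Aj j ∩ {g | g.norm ≤ R2}).ncard < (Aj (j + 1) ∩ {g | g.norm ≤ R2}).ncard := by
          apply Set.ncard_lt_ncard _ (hfin.subset Set.inter_subset_right)
          refine ⟨Set.inter_subset_inter_left _ (hmono j), ?_⟩
          intro hsub
          exact hcon j (by omega) (hsub.trans Set.inter_subset_left)
        omega
    have h1 := key _ le_rfl
    have h2 := Set.ncard_le_ncard (Set.inter_subset_right (s := Aj
      ({g : FreeGroup α | g.norm ≤ R2}.ncard + 1)) (t := {g | g.norm ≤ R2})) hfin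
    omega
  by_cases hgp : gg φ p ∈ Aj M
  · obtain ⟨q, q1, q2, q3⟩ := hgp
    exact ⟨q, by omega, q3, q2⟩
  exfalso
  have h1M : (1 : FreeGroup α) ∈ Aj M := ⟨[], by simp, rfl, by simp⟩
  have hpne : p ≠ [] := by
    rintro rfl
    exact hgp h1M
  have hbound : (z.length + k) * ρ ≤ R2 := by
    rw [hR2]; exact Nat.mul_le_mul_right _ (by simpa using hz1)
  have hN : ∀ (h : FreeGroup α) (x : β ⊕ β), h.norm ≤ (z.length + k) * ρ →
      (h * gg φ [x]).norm ≤ (z.length + k) * ρ → h • TT φ [x] ⊆ TT φ p →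
      (h ∈ Aj M ↔ h * gg φ [x] ∈ Aj M) := by
    intro h x n1 n2 hx
    constructor
    · rintro ⟨q, q1, q2, q3⟩
      refine hM' ⟨⟨q ++ [x], by simp; omega, by rw [gg_append, q2], ?_⟩, n2.trans hbound⟩
      rw [TT_append, q2]
      exact Set.union_subset q3 hx
    · rintro ⟨q, q1, q2, q3⟩
      refine hM' ⟨⟨q ++ winv [x], by simp; omega,
        by rw [gg_append, q2, gg_winv, mul_inv_cancel_right], ?_⟩,
        n1.trans hbound⟩
      rw [TT_append, q2, TT_winv, smul_smul, mul_inv_cancel_right]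
      exact Set.union_subset q3 hx
  -- the two words
  have hz2' : gg φ z = gg φ p := hz2
  have T1 : TT φ (p ++ winv z) = TT φ p ∪ TT φ z := by
    rw [TT_append, TT_winv, smul_smul, hz2', mul_inv_cancel, one_smul]
  have T2 : TT φ (p ++ winv p ++ (z ++ winv z)) = TT φ p ∪ TT φ z := by
    rw [TT_append, TT_mul_winv, gg_mul_winv, one_smul, TT_mul_winv]
  obtain ⟨u0, hu0⟩ := exists_tl (l := p ++ winv z) (by simp [hpne])
  obtain ⟨v0, hv0⟩ := exists_tl (l := p ++ winv p ++ (z ++ winv z)) (by simp [hpne])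
  have hcon := hη3 u0 v0 (by rw [hu0, hv0, T1, T2]) (by rw [hu0, hv0]; simp [hz2'])
  have hinv := (sm_invariant (A := Aj M) (P := TT φ p) (z := z) hρ hN hr hcon).2.2 1
  simp only [tl_lift] at hinv
  rw [one_smul, sub_TT hη1 hη2, hu0, hv0, T1] at hinv
  have hinv := hinv le_rfl
  rw [sub_sm hρ hN hη0 hη1 hη2 _ 1 (by rw [one_smul, T1]),
    sub_sm hρ hN hη0 hη1 hη2 _ 1 (by rw [one_smul, T2])] at hinv
  have s1 : sm φ (Aj M) (TT φ p) 1 p = -1 := by
    rw [sm_telescope _ _ (by rw [one_smul]), one_mul, ind, ind, if_neg hgp, if_pos h1M]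
    ring
  have s2 : sm φ (Aj M) (TT φ p) 1 z = 0 := by
    apply sm_zero (N := {y | y.norm ≤ (z.length + k) * ρ}) hN
    intro y hy
    rw [one_smul] at hy
    have := norm_of_mem_TT φ hρ hy
    show y.norm ≤ _
    rw [Nat.add_mul]; omega
  rw [sm_append, sm_winv' z 1 _ (by rw [one_mul, one_mul, hz2']), s1, s2,
    sm_append, sm_append, sm_winv, s1, gg_mul_winv, mul_one, sm_append, sm_winv, s2] at hinv
  norm_num at hinv

end Pool.Agent.MP_d35c37
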