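import Pool.Agent.Lib.MP_d35c37_al.Gen

set_option autoImplicit false

open scoped Pointwise

namespace Pool.Agent.MP_d35c37

open FreeGroup

variable {α β : Type*}

lemma ball_finite [DecidableEq α] [Finite α] (R : ℕ) : {g : FreeGroup α | g.norm ≤ R}.Finite := by
  have h : {l : List (α × Bool) | l.length ≤ R}.Finite := List.finite_length_le _ _
  refine Set.Finite.of_finite_image (f := FreeGroup.toWord) (h.subset ?_)
    (fun x _ y _ hxy => FreeGroup.toWord_injective hxy)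
  rintro _ ⟨g, hg, rfl⟩
  exact hg

lemma exists_rep_bound {W X : Type*} (len : W → ℕ) (P : Set W) (F : W → X)
    (hfin : (F '' P).Finite) : ∃ k0, ∀ p ∈ P, ∃ w ∈ P, len w ≤ k0 ∧ F w = F p := by
  classical
  choose f hf using fun x : (F '' P) => x.2
  have : Finite (F '' P) := hfin
  obtain ⟨k0, hk0⟩ := (Set.finite_range fun x : (F '' P) => len (f x)).bddAbove
  refine ⟨k0, fun p hp => ?_⟩
  have hx : F p ∈ F '' P := ⟨p, hp, rfl⟩
  refine ⟨f ⟨F p, hx⟩, (hf ⟨F p, hx⟩).1, hk0 ⟨⟨F p, hx⟩, rfl⟩, (hf ⟨F p, hx⟩).2⟩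

lemma tr_subset_one [DecidableEq α] {w : List (α ⊕ α)} (h : tr w ⊆ {1}) : w = [] := by
  rcases w with _ | ⟨a, w⟩
  · rfl
  · exfalso
    have h1 : val [a] ∈ tr (a :: w) := mem_tr_iff.2 ⟨[a], w, rfl, rfl⟩
    have h2 : val [a] = 1 := h h1
    have h3 := rwd_mul_letter (1 : FreeGroup α) a
    rw [one_mul, h2] at h3
    simp at h3

section

variable (φ : β → List (α ⊕ α))

lemma ph_ne_nil (hne : ∀ b, φ b ≠ []) (x : β ⊕ β) : ph φ x ≠ [] := by
  rcases x with b | b
  · exact hne b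
  · simpa [ph, winv_eq_nil] using hne b

lemma TT_subset_one [DecidableEq α] (hne : ∀ b, φ b ≠ []) {p : List (β ⊕ β)}
    (h : TT φ p ⊆ {1}) : p = [] := by
  have := tr_subset_one h
  rcases p with _ | ⟨x, p⟩
  · rfl
  · rw [Ph_cons] at this
    exact absurd (List.append_eq_nil_iff.1 this).1 (ph_ne_nil φ hne x)

lemma TT_mul_winv (p : List (β ⊕ β)) : TT φ (p ++ winv p) = TT φ p := by
  rw [TT_append, TT_winv, smul_smul]; simp

lemma gg_mul_winv (p : List (β ⊕ β)) : gg φ (p ++ winv p) = 1 := by simp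

/-- replacement relation -/
def Good {M : Type*} (A : InvAct β M) (p q : List (β ⊕ β)) : Prop :=
  (TT φ q ⊆ TT φ p ∧ gg φ q = gg φ p) ∧ ∀ m, A.Rd m p → A.Rd m q ∧ A.act m q = A.act m p

variable {M : Type*} (A : InvAct β M)

lemma Good.refl (p : List (β ⊕ β)) : Good φ A p p :=
  ⟨⟨le_rfl, rfl⟩, fun _ h => ⟨h, rfl⟩⟩

variable {φ A}

lemma Good.trans {p q s : List (β ⊕ β)} (h1 : Good φ A p q) (h2 : Good φ A q s) :
    Good φ A p s := by
  refine ⟨⟨h2.1.1.trans h1.1.1, h2.1.2.trans h1.1.2⟩, fun m hm => ?_⟩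
  obtain ⟨a1, a2⟩ := h1.2 m hm
  obtain ⟨b1, b2⟩ := h2.2 m a1
  exact ⟨b1, b2.trans a2⟩

lemma Good.append {p q p' q' : List (β ⊕ β)} (h1 : Good φ A p p') (h2 : Good φ A q q') :
    Good φ A (p ++ q) (p' ++ q') := by
  refine ⟨⟨?_, ?_⟩, fun m hm => ?_⟩
  · rw [TT_append, TT_append, h1.1.2]
    exact Set.union_subset_union h1.1.1 (Set.smul_set_mono h2.1.1)
  · rw [gg_append, gg_append, h1.1.2, h2.1.2]
  · obtain ⟨m1, m2⟩ := A.Rd_append.1 hm
    obtain ⟨a1, a2⟩ := h1.2 m m1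
    obtain ⟨b1, b2⟩ := h2.2 _ m2
    refine ⟨A.Rd_append.2 ⟨a1, by rw [a2]; exact b1⟩, ?_⟩
    rw [A.act_append, A.act_append, a2, b2]

end

section thmB

variable [DecidableEq α] {φ : β → List (α ⊕ α)} {M : Type*} {A : InvAct β M} {ρ K k k0 : ℕ}

/-- words with bounded Munn tree have a bounded normal form -/
lemma normal_form (hk : k0 + 1 ≤ k)
    (hR : ∀ y y' : List (β ⊕ β), y.length ≤ k → y'.length ≤ k → TT φ y = TT φ y' →
      gg φ y = gg φ y' → ∀ m, A.act m y = A.act m y')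
    {R : ℕ} (hk0 : ∀ p : List (β ⊕ β), (∀ y ∈ TT φ p, y.norm ≤ R) →
      ∃ w : List (β ⊕ β), w.length ≤ k0 ∧ TT φ w = TT φ p ∧ gg φ w = gg φ p)
    (p : List (β ⊕ β)) (hp : ∀ y ∈ TT φ p, y.norm ≤ R) :
    ∃ w : List (β ⊕ β), w.length ≤ k0 ∧ TT φ w = TT φ p ∧ gg φ w = gg φ p ∧
      ∀ m, A.act m p = A.act m w := by
  induction p using List.reverseRecOn with
  | nil => exact ⟨[], by simp, rfl, rfl, fun m => rfl⟩
  | append_singleton p x ih =>
    obtain ⟨w, w1, w2, w3, w4⟩ := ih (fun y hy => hp y (by rw [TT_append]; exact Or.inl hy))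
    obtain ⟨z, z1, z2, z3⟩ := hk0 _ hp
    refine ⟨z, z1, z2, z3, fun m => ?_⟩
    have h1 : A.act m (p ++ [x]) = A.act m (w ++ [x]) := by
      rw [A.act_append, A.act_append, w4]
    rw [h1]
    apply hR
    · simp; omega
    · omega
    · rw [z2, TT_append, TT_append, w2, w3]
    · rw [z3, gg_append, gg_append, w3]

/-- base case of the strong bounded path property -/
lemma good_base (hk : k0 + 1 ≤ k) (hk' : 2 * k0 + 2 * K ≤ k)
    (hR : ∀ y y' : List (β ⊕ β), y.length ≤ k → y'.length ≤ k → TT φ y = TT φ y' →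
      gg φ y = gg φ y' → ∀ m, A.act m y = A.act m y')
    {R : ℕ} (hk0 : ∀ p : List (β ⊕ β), (∀ y ∈ TT φ p, y.norm ≤ 2 * R) →
      ∃ w : List (β ⊕ β), w.length ≤ k0 ∧ TT φ w = TT φ p ∧ gg φ w = gg φ p)
    (p q : List (β ⊕ β)) (hp : ∀ y ∈ TT φ p, y.norm ≤ R)
    (hq : q.length ≤ K) (hq1 : TT φ q ⊆ TT φ p) (hq2 : gg φ q = gg φ p) :
    Good φ A p q := by
  refine ⟨⟨hq1, hq2⟩, fun m hm => ?_⟩
  obtain ⟨w, w1, w2, w3, w4⟩ := normal_form hk hR hk0 p (fun y hy => (hp y hy).trans (by omega))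
  obtain ⟨z, z1, z2, z3, z4⟩ := normal_form hk hR hk0 (winv p) (by
    intro y hy
    rw [TT_winv] at hy
    obtain ⟨y', hy', rfl⟩ := hy
    have h1 := norm_mul_le (gg φ p)⁻¹ y'
    rw [norm_inv_eq] at h1
    have h2 := hp _ (gg_mem_TT φ p)
    have h3 := hp _ hy'
    simp only [smul_eq_mul]
    omega)
  have e1 : ∀ m, A.act m (winv p) = A.act m (winv w) := by
    intro m
    rw [z4 m]
    apply hR
    · omega
    · simp; omega
    · rw [z2, TT_winv, TT_winv, w2, w3]
    · rw [z3, gg_winv, gg_winv, w3]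
  have e2 : A.act (A.act m w) (winv w) = m := by
    rw [← e1, ← w4]; exact hm
  have e3 : A.act m q = A.act m w := by
    have : A.act m w = A.act m (w ++ winv w ++ q) := by
      apply hR
      · omega
      · simp; omega
      · rw [TT_append, TT_mul_winv, gg_mul_winv, one_smul, Set.union_eq_self_of_subset_right]
        rw [w2]; exact hq1
      · rw [gg_append, gg_mul_winv, one_mul, hq2, w3]
    rw [A.act_append, A.act_append, e2] at this
    exact this.symm
  refine ⟨?_, by rw [e3, w4]⟩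
  have : A.act m (w ++ winv w) = A.act m (w ++ winv w ++ (q ++ winv q)) := by
    apply hR
    · simp; omega
    · simp; omega
    · rw [TT_append φ (w ++ winv w), TT_mul_winv, gg_mul_winv, one_smul, TT_mul_winv,
        Set.union_eq_self_of_subset_right]
      rw [w2]; exact hq1
    · rw [gg_append φ (w ++ winv w), gg_mul_winv, gg_mul_winv, one_mul]
  rw [A.act_append m (w ++ winv w), A.act_append, e2, A.act_append] at this
  exact this.symm

lemma strong_bp (hρ : ∀ b, (φ b).length ≤ ρ) (hk : k0 + 1 ≤ k) (hk' : 2 * k0 + 2 * K ≤ k)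
    (hR : ∀ y y' : List (β ⊕ β), y.length ≤ k → y'.length ≤ k → TT φ y = TT φ y' →
      gg φ y = gg φ y' → ∀ m, A.act m y = A.act m y')
    (hk0 : ∀ p : List (β ⊕ β), (∀ y ∈ TT φ p, y.norm ≤ 2 * ((K + 2) * ρ)) →
      ∃ w : List (β ⊕ β), w.length ≤ k0 ∧ TT φ w = TT φ p ∧ gg φ w = gg φ p)
    (hBP : ∀ p : List (β ⊕ β), (gg φ p).norm ≤ 2 * ρ →
      ∃ q : List (β ⊕ β), q.length ≤ K ∧ TT φ q ⊆ TT φ p ∧ gg φ q = gg φ p)
    (p : List (β ⊕ β)) (hp : (gg φ p).norm ≤ 2 * ρ) : ∃ q, q.length ≤ K ∧ Good φ A p q := by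
  refine main_ind φ hρ (Good φ A) (Good.refl φ A) (fun _ _ _ => Good.trans)
    (fun _ _ _ _ => Good.append) (fun _ _ h => h.1) ?_ p hp
  intro p h1 h2
  obtain ⟨q, q1, q2, q3⟩ := hBP p h2
  exact ⟨q, q1, good_base hk hk' hR hk0 p q h1 q1 q2 q3⟩

omit [DecidableEq α] in
lemma cover {m' : M} (L : ℕ) (ts : List (FreeGroup α))
    (h : ∀ t ∈ ts, ∃ y : List (β ⊕ β), y.length ≤ L ∧ t ∈ TT φ y ∧ A.Rd m' y) :
    ∃ Y : List (β ⊕ β), Y.length ≤ 2 * L * ts.length ∧ gg φ Y = 1 ∧ (∀ t ∈ ts, t ∈ TT φ Y) ∧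
      A.act m' Y = m' := by
  induction ts with
  | nil => exact ⟨[], by simp, rfl, by simp, A.act_nil _⟩
  | cons t ts ih =>
    obtain ⟨Y, Y1, Y2, Y3, Y4⟩ := ih (fun t ht => h t (by simp [ht]))
    obtain ⟨y, y1, y2, y3⟩ := h t (by simp)
    refine ⟨y ++ winv y ++ Y, ?_, ?_, ?_, ?_⟩
    · simp only [List.length_append, winv_length, List.length_cons]
      have : 2 * L * (ts.length + 1) = 2 * L * ts.length + 2 * L := by ring
      omega
    · rw [gg_append, gg_mul_winv, one_mul, Y2]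
    · intro s hs
      rw [TT_append, TT_mul_winv, gg_mul_winv, one_smul]
      rcases List.mem_cons.1 hs with rfl | hs
      · left; exact y2
      · right; exact Y3 s hs
    · have : A.act (A.act m' y) (winv y) = m' := y3
      rw [A.act_append, A.act_append, this, Y4]

lemma readable (hρ : ∀ b, (φ b).length ≤ ρ) (hne : ∀ b, φ b ≠ [])
    (hk : 2 * (K + 1) * (ρ + 1) + 2 ≤ k)
    (hR : ∀ y y' : List (β ⊕ β), y.length ≤ k → y'.length ≤ k → TT φ y = TT φ y' →
      gg φ y = gg φ y' → ∀ m, A.act m y = A.act m y')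
    (hSBP : ∀ p : List (β ⊕ β), (gg φ p).norm ≤ 2 * ρ → ∃ q : List (β ⊕ β), q.length ≤ K ∧
      Good φ A p q)
    {u : List (β ⊕ β)} {E : M} (hu : A.Rd E u) (v : List (β ⊕ β)) (hv : TT φ v ⊆ TT φ u) :
    A.Rd E v := by
  induction v using List.reverseRecOn with
  | nil => exact A.Rd_nil E
  | append_singleton v x ih =>
    have hv1 : TT φ v ⊆ TT φ u := by
      refine Set.Subset.trans ?_ hv
      rw [TT_append]; exact Set.subset_union_left
    have hr := ih hv1
    rcases eq_or_ne u [] with rfl | hune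
    · have := TT_subset_one φ hne hv
      simp at this
    refine A.Rd_append.2 ⟨hr, ?_⟩
    have claim : ∀ t ∈ TT φ [x], ∃ y : List (β ⊕ β), y.length ≤ K + 1 ∧ t ∈ TT φ y ∧
        A.Rd (A.act E v) y := by
      intro t ht
      have hz : gg φ v * t ∈ (1 : FreeGroup α) • TT φ u := by
        rw [one_smul]
        apply hv
        rw [TT_append]
        right
        exact Set.smul_mem_smul_set ht
      obtain ⟨a, x', b, e, hx'⟩ := exists_edge φ u 1 hune hz
      rw [one_mul] at hx'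
      obtain ⟨q, q1, q2, q3⟩ := hSBP (winv v ++ a) (by
        rw [gg_append, gg_winv]
        have d1 := dist_triangle (gg φ v) (gg φ v * t) (gg φ a)
        have d2 := norm_of_mem_TT φ hρ ht
        have hmem : gg φ a ∈ gg φ a • TT φ [x'] := ⟨1, one_mem_TT _ _, by simp⟩
        have d3 := dist_of_mem_smul_TT φ hρ hx' hmem
        rw [inv_mul_cancel_left] at d1
        simp only [List.length_singleton, one_mul] at d2 d3
        omega)
      have hEa : A.Rd E (a ++ [x']) := by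
        have : u = a ++ [x'] ++ b := by rw [e]; simp
        rw [this] at hu
        exact hu.left
      have hrd : A.Rd (A.act E v) (winv v ++ a) := by
        refine A.Rd_append.2 ⟨A.Rd_act_winv _ _, ?_⟩
        have : A.act (A.act E v) (winv v) = E := hr
        rw [this]
        exact hEa.left
      have hact : A.act (A.act E v) (winv v ++ a) = A.act E a := by
        have : A.act (A.act E v) (winv v) = E := hr
        rw [A.act_append, this]
      obtain ⟨r1, r2⟩ := q3 _ hrd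
      refine ⟨q ++ [x'], by simp; omega, ?_, A.Rd_append.2 ⟨r1, ?_⟩⟩
      · rw [TT_append]
        right
        rw [q2.2, gg_append, gg_winv]
        obtain ⟨s, hs, hs'⟩ := hx'
        refine ⟨s, hs, ?_⟩
        simp only [smul_eq_mul] at hs' ⊢
        rw [mul_assoc, hs', inv_mul_cancel_left]
      · rw [r2, hact]
        exact hEa.right
    obtain ⟨Y, Y1, Y2, Y3, Y4⟩ := cover (A := A) (K + 1) ((ph φ x).inits.map val) (by
      intro t ht
      apply claim
      rw [List.mem_map] at ht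
      obtain ⟨s, hs, rfl⟩ := ht
      obtain ⟨s', e⟩ := (List.mem_inits _ _).1 hs
      exact mem_tr_iff.2 ⟨s, s', by rw [Ph_singleton, e], rfl⟩)
    have hsub : TT φ [x] ⊆ TT φ Y := by
      intro t ht
      apply Y3
      obtain ⟨s, s', e, rfl⟩ := mem_tr_iff.1 ht
      rw [Ph_singleton] at e
      exact List.mem_map.2 ⟨s, (List.mem_inits _ _).2 ⟨s', e.symm⟩, rfl⟩
    have hlen : Y.length ≤ 2 * (K + 1) * (ρ + 1) := by
      refine Y1.trans ?_
      rw [List.length_map, List.length_inits]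
      exact Nat.mul_le_mul_left _ (by have := ph_length_le φ hρ x; omega)
    have key := hR Y (Y ++ ([x] ++ winv [x])) (by omega) (by simp; omega) (by
      rw [TT_append, TT_mul_winv, Y2, one_smul, Set.union_eq_self_of_subset_right hsub])
      (by rw [gg_append, gg_mul_winv, mul_one]) (A.act E v)
    rw [A.act_append, Y4, A.act_append] at key
    exact key.symm

lemma act_eq
    (hk : 2 * K ≤ k)
    (hR : ∀ y y' : List (β ⊕ β), y.length ≤ k → y'.length ≤ k → TT φ y = TT φ y' →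
      gg φ y = gg φ y' → ∀ m, A.act m y = A.act m y')
    (hSBP : ∀ p : List (β ⊕ β), (gg φ p).norm ≤ 2 * ρ → ∃ q : List (β ⊕ β), q.length ≤ K ∧
      Good φ A p q)
    {u : List (β ⊕ β)} {E : M} (hu : A.Rd E u) (v : List (β ⊕ β)) (hv : A.Rd E v)
    (hg : gg φ v = gg φ u) :
    A.act E v = A.act E u := by
  have e1 : A.act (A.act E v) (winv v) = E := hv
  obtain ⟨q, q1, q2, q3⟩ := hSBP (winv v ++ u) (by simp [hg])
  obtain ⟨r1, r2⟩ := q3 (A.act E v) (A.Rd_append.2 ⟨A.Rd_act_winv _ _, by rw [e1]; exact hu⟩)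
  rw [A.act_append, e1] at r2
  have hq : gg φ q = 1 := by rw [q2.2]; simp [hg]
  have := hR q (q ++ winv q) (by omega) (by simp; omega) (TT_mul_winv φ q).symm
    (by rw [gg_mul_winv, hq]) (A.act E v)
  rw [A.act_append] at this
  have r3 : A.act (A.act (A.act E v) q) (winv q) = A.act E v := r1
  rw [r3, r2] at this
  exact this.symm

end thmB

/-- bounded path property -/
def BP (φ : β → List (α ⊕ α)) [DecidableEq α] (r K : ℕ) : Prop :=
  ∀ p : List (β ⊕ β), (gg φ p).norm ≤ r →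
    ∃ q : List (β ⊕ β), q.length ≤ K ∧ TT φ q ⊆ TT φ p ∧ gg φ q = gg φ p

/-- Theorem B : the bounded path property gives a finite presentation -/
theorem thmB [DecidableEq α] [Finite α] {φ : β → List (α ⊕ α)} {ρ K : ℕ}
    (hρ : ∀ b, (φ b).length ≤ ρ) (hne : ∀ b, φ b ≠ []) (hBP : BP φ (2 * ρ) K) :
    ∃ k : ℕ, ∀ (r : FreeSemigroup (β ⊕ β) → FreeSemigroup (β ⊕ β) → Prop)
      (_ : ∀ u v, Wrel u v → r u v)
      (_ : ∀ u v : FreeSemigroup (β ⊕ β), (tl u).length ≤ k → (tl v).length ≤ k →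
        TT φ (tl u) = TT φ (tl v) → gg φ (tl u) = gg φ (tl v) → r u v),
      ∀ u v : FreeSemigroup (β ⊕ β), TT φ (tl u) = TT φ (tl v) → gg φ (tl u) = gg φ (tl v) →
        (u : (conGen r).Quotient) = v := by
  obtain ⟨k0, hk0⟩ := exists_rep_bound (fun w : List (β ⊕ β) => w.length)
    {p | ∀ y ∈ TT φ p, y.norm ≤ 2 * ((K + 2) * ρ)} (fun p => (TT φ p, gg φ p)) (by
      have h1 := ball_finite (α := α) (2 * ((K + 2) * ρ))
      refine (h1.finite_subsets.prod h1).subset ?_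
      rintro _ ⟨p, hp, rfl⟩
      exact ⟨hp, hp _ (gg_mem_TT φ p)⟩)
  obtain ⟨k, hk⟩ : ∃ k, k = (k0 + 1) + (2 * k0 + 2 * K) + (2 * (K + 1) * (ρ + 1) + 2) := ⟨_, rfl⟩
  refine ⟨k, ?_⟩
  intro r hW hr u v hT hg
  have hR : ∀ y y' : List (β ⊕ β), y.length ≤ k → y'.length ≤ k → TT φ y = TT φ y' →
      gg φ y = gg φ y' → ∀ m, (quotAct r hW).act m y = (quotAct r hW).act m y' := by
    intro y y' h1 h2 h3 h4 m
    rcases eq_or_ne y [] with rfl | hy
    · have : y' = [] := TT_subset_one φ hne (by rw [← h3]; simp)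
      rw [this]
    rcases eq_or_ne y' [] with rfl | hy'
    · exact absurd (TT_subset_one φ hne (by rw [h3]; simp)) hy
    obtain ⟨u, rfl⟩ := exists_tl hy
    obtain ⟨v, rfl⟩ := exists_tl hy'
    show qact r m (tl u) = qact r m (tl v)
    rw [qact_tl, qact_tl]
    congr 1
    exact (Con.eq _).2 (ConGen.Rel.of _ _ (hr u v h1 h2 h3 h4))
  have hSBP := strong_bp (k0 := k0) (k := k) (K := K) (A := quotAct r hW) hρ (by omega) (by omega) hR (by
    intro p hp
    obtain ⟨w, _, w1, w2⟩ := hk0 p hp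
    simp only [Prod.mk.injEq] at w2
    exact ⟨w, w1, w2⟩) hBP
  apply eq_of_act r hW
  · intro E hE
    have h1 := readable (ρ := ρ) (k := k) (K := K) hρ hne (by omega) hR hSBP hE (tl v) hT.ge
    exact ⟨h1, act_eq (ρ := ρ) (k := k) (K := K) (by omega) hR hSBP hE _ h1 hg.symm⟩
  · intro E hE
    have h1 := readable (ρ := ρ) (k := k) (K := K) hρ hne (by omega) hR hSBP hE (tl u) hT.le
    exact ⟨h1, act_eq (ρ := ρ) (k := k) (K := K) (by omega) hR hSBP hE _ h1 hg⟩

end Pool.Agent.MP_d35c37
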