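import Pool.Agent.Lib.MP_d35c37_al.ThmA

set_option autoImplicit false

open scoped Pointwise

namespace Pool.Agent.MP_d35c37

open FreeGroup

variable {α β : Type*}

/-- connectivity in the graph carried by `A` -/
def conn (φ : β → List (α ⊕ α)) (A : Set (FreeGroup α)) (v v' : FreeGroup α) : Prop :=
  ∃ q : List (β ⊕ β), v * gg φ q = v' ∧ v • TT φ q ⊆ A

section conn

variable {φ : β → List (α ⊕ α)} {A A' : Set (FreeGroup α)}

lemma conn.mono {v v' : FreeGroup α} (h : conn φ A v v') (hA : A ⊆ A') : conn φ A' v v' := by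
  obtain ⟨q, h1, h2⟩ := h
  exact ⟨q, h1, h2.trans hA⟩

lemma conn.trans {u v w : FreeGroup α} (h : conn φ A u v) (h' : conn φ A v w) :
    conn φ A u w := by
  obtain ⟨q, h1, h2⟩ := h
  obtain ⟨s, h3, h4⟩ := h'
  refine ⟨q ++ s, by rw [gg_append, ← mul_assoc, h1, h3], ?_⟩
  rw [TT_append, Set.smul_set_union, smul_smul, h1]
  exact Set.union_subset h2 h4

lemma conn.smul {v v' : FreeGroup α} (g : FreeGroup α) (h : conn φ A v v') :
    conn φ (g • A) (g * v) (g * v') := by
  obtain ⟨q, h1, h2⟩ := h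
  refine ⟨q, by rw [mul_assoc, h1], ?_⟩
  rw [← smul_smul]
  exact Set.smul_set_mono h2

end conn

section state

variable [DecidableEq α] (φ : β → List (α ⊕ α))

/-- the part of `A` in the cone of `c`, recentred -/
def child (A : Set (FreeGroup α)) (c : α ⊕ α) : Set (FreeGroup α) :=
  {w | hd (val [c] * w) = some c ∧ val [c] * w ∈ A}

/-- ball of radius `r` -/
abbrev Bl (α : Type*) [DecidableEq α] (r : ℕ) : Type _ := {g : FreeGroup α // g.norm ≤ r}

/-- state of a set -/
def St (r : ℕ) (A : Set (FreeGroup α)) : Set (Bl α r) × Set (Bl α r × Bl α r) :=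
  ({w | w.1 ∈ A}, {p | conn φ A p.1.1 p.2.1})

lemma mem_iff_of_child {r : ℕ} {A A' : Set (FreeGroup α)} (h1 : (1 : FreeGroup α) ∈ A ↔ 1 ∈ A')
    (h : ∀ c, St φ r (child A c) = St φ r (child A' c)) (w : FreeGroup α) (hw : w.norm ≤ r) :
    w ∈ A ↔ w ∈ A' := by
  rcases e : hd w with _ | c
  · rw [hd_eq_none] at e
    subst e; exact h1
  · have hn := norm_of_hd e
    have h2 := congrArg Prod.fst (h c)
    have h3 := Set.ext_iff.1 h2 ⟨(val [c])⁻¹ * w, by omega⟩
    simp only [St, child, Set.mem_ofPred_eq, mul_inv_cancel_left, e, true_and] at h3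
    exact h3

lemma conn_of_child {r ρ : ℕ} (hρ : ∀ b, (φ b).length ≤ ρ) (hr : ρ ≤ r)
    {A A' : Set (FreeGroup α)} (h1 : (1 : FreeGroup α) ∈ A ↔ 1 ∈ A')
    (h : ∀ c, St φ r (child A c) = St φ r (child A' c)) :
    ∀ (n : ℕ) (q : List (β ⊕ β)) (v : FreeGroup α), q.length = n → v.norm ≤ r →
      (v * gg φ q).norm ≤ r → v • TT φ q ⊆ A → conn φ A' v (v * gg φ q) := by
  have hmem := mem_iff_of_child φ h1 h
  intro n
  induction n using Nat.strong_induction_on with
  | _ n ih =>
  intro q v hq hv hv' hsub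
  by_cases h1m : (1 : FreeGroup α) ∈ v • TT φ q
  · rcases eq_or_ne q [] with rfl | hne
    · refine ⟨[], rfl, ?_⟩
      simp only [TT_nil, Set.smul_set_singleton, smul_eq_mul, mul_one,
        Set.singleton_subset_iff] at hsub ⊢
      exact (hmem v hv).1 hsub
    · obtain ⟨a, x, b, e, hx⟩ := exists_edge φ q v hne h1m
      have hlen : q.length = a.length + b.length + 1 := by rw [e]; simp; omega
      have hva : (v * gg φ a) ∈ (v * gg φ a) • TT φ [x] := ⟨1, one_mem_TT _ _, by simp⟩
      have hvb : (v * gg φ a * gg φ [x]) ∈ (v * gg φ a) • TT φ [x] :=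
        ⟨gg φ [x], gg_mem_TT _ _, rfl⟩
      have hall : ∀ y ∈ (v * gg φ a) • TT φ [x], y.norm ≤ ρ := by
        intro y hy
        have := dist_of_mem_smul_TT φ hρ hx hy
        simpa using this
      have hsplit : v • TT φ q = v • TT φ a ∪ ((v * gg φ a) • TT φ [x] ∪
          (v * gg φ a * gg φ [x]) • TT φ b) := by
        rw [e, TT_append, TT_cons φ x b, Set.smul_set_union, Set.smul_set_union,
          Set.smul_set_union, smul_smul, smul_smul, smul_smul]
      rw [hsplit, Set.union_subset_iff, Set.union_subset_iff] at hsub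
      have hend : v * gg φ a * gg φ [x] * gg φ b = v * gg φ q := by
        rw [e, gg_append, gg_cons φ x b]; group
      have c1 := ih a.length (by omega) a v rfl hv ((hall _ hva).trans hr) hsub.1
      have c2 : conn φ A' (v * gg φ a) (v * gg φ a * gg φ [x]) := by
        refine ⟨[x], rfl, fun y hy => ?_⟩
        exact (hmem y ((hall y hy).trans hr)).1 (hsub.2.1 hy)
      have c3 := ih b.length (by omega) b (v * gg φ a * gg φ [x]) rfl ((hall _ hvb).trans hr)
        (by rw [hend]; exact hv') hsub.2.2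
      rw [hend] at c3
      exact c1.trans (c2.trans c3)
  · have hhd : ∀ y ∈ v • TT φ q, hd y = hd v := fun y hy => hd_of_mem_smul_tr h1m hy
    have hvv : v ∈ v • TT φ q := ⟨1, one_mem_TT _ _, by simp⟩
    have hvg : v * gg φ q ∈ v • TT φ q := ⟨_, gg_mem_TT _ _, rfl⟩
    rcases e : hd v with _ | c
    · rw [hd_eq_none] at e
      rw [e] at hvv
      exact absurd hvv (by rw [e] at h1m; exact h1m)
    · have n1 := norm_of_hd e
      have n2 := norm_of_hd ((hhd _ hvg).trans e)
      have h2 := congrArg Prod.snd (h c)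
      have h3 := Set.ext_iff.1 h2 (⟨(val [c])⁻¹ * v, by omega⟩, ⟨(val [c])⁻¹ * (v * gg φ q), by omega⟩)
      simp only [St, Set.mem_ofPred_eq] at h3
      have h4 := h3.1 ⟨q, by group, by
        intro y hy
        rw [← smul_smul] at hy
        obtain ⟨y', hy', rfl⟩ := hy
        simp only [child, Set.mem_ofPred_eq, smul_eq_mul, mul_inv_cancel_left]
        exact ⟨(hhd _ hy').trans e, hsub hy'⟩⟩
      have h5 := h4.smul (val [c])
      rw [mul_inv_cancel_left, mul_inv_cancel_left] at h5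
      refine h5.mono ?_
      rintro _ ⟨y, hy, rfl⟩
      exact hy.2

/-- congruence lemma for states -/
lemma St_congr {r ρ : ℕ} (hρ : ∀ b, (φ b).length ≤ ρ) (hr : ρ ≤ r)
    {A A' : Set (FreeGroup α)} (h1 : (1 : FreeGroup α) ∈ A ↔ 1 ∈ A')
    (h : ∀ c, St φ r (child A c) = St φ r (child A' c)) : St φ r A = St φ r A' := by
  refine Prod.ext ?_ ?_
  · ext w
    exact mem_iff_of_child φ h1 h w.1 w.2
  · ext p
    constructor
    · rintro ⟨q, hq, hs⟩
      have := conn_of_child φ hρ hr h1 h _ q p.1.1 rfl p.1.2 (by rw [hq]; exact p.2.2) hs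
      rwa [hq] at this
    · rintro ⟨q, hq, hs⟩
      have := conn_of_child φ hρ hr h1.symm (fun c => (h c).symm) _ q p.1.1 rfl p.1.2
        (by rw [hq]; exact p.2.2) hs
      rwa [hq] at this

lemma rwd_letter_mul {d : α ⊕ α} {w : FreeGroup α} (h : hd w ≠ some d.swap) :
    rwd (val [d] * w) = d :: rwd w := by
  have e : val [d] * w = val (d :: rwd w) := by rw [val_cons d (rwd w), val_rwd]
  rw [e]
  apply rwd_val_of_isReduced
  rw [List.map_cons, rwd_map]
  have hw : IsReduced w.toWord := isReduced_toWord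
  rcases hr : rwd w with _ | ⟨c, t⟩
  · have : w.toWord = [] := by rw [← rwd_map, hr]; rfl
    rw [this]
    exact IsReduced.singleton
  · have h2 : w.toWord = ce c :: t.map ce := by rw [← rwd_map, hr]; rfl
    rw [h2] at hw ⊢
    rw [isReduced_cons_cons]
    refine ⟨?_, hw⟩
    have h3 : c ≠ d.swap := by
      intro hc
      apply h
      rw [hd, hr, hc]; rfl
    rcases c with c | c <;> rcases d with d | d <;> simp_all [ce, eq_comm]

lemma hd_letter_mul {d : α ⊕ α} {w : FreeGroup α} (h : hd w ≠ some d.swap) :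
    hd (val [d] * w) = some d := by
  rw [hd, rwd_letter_mul h]; rfl

/-- domain attached to a direction -/
def Dom : Option (α ⊕ α) → Set (FreeGroup α)
  | none => Set.univ
  | some d => {w | hd w ≠ some d.swap}

lemma child_subset_Dom (A : Set (FreeGroup α)) (c : α ⊕ α) : child A c ⊆ Dom (some c) := by
  rintro w ⟨h1, _⟩ h2
  have n1 := norm_of_hd h1
  have n2 := norm_of_hd h2
  rw [inv_mul_cancel_left] at n1
  rw [val_swap, inv_inv] at n2
  omega

/-- the set of pairs of states at truncation depth `L` -/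
def Sig (r L : ℕ) (a : Option (α ⊕ α)) :
    Set ((Set (Bl α r) × Set (Bl α r × Bl α r)) × (Set (Bl α r) × Set (Bl α r × Bl α r))) :=
  {s | ∃ A ⊆ Dom a, s = (St φ r A, St φ r (A ∩ {g | g.norm ≤ L}))}

lemma Sig_step_aux {r ρ : ℕ} (hρ : ∀ b, (φ b).length ≤ ρ) (hr : ρ ≤ r) {L1 L2 : ℕ}
    (h : Sig φ r L1 = Sig φ r L2) (a : Option (α ⊕ α)) :
    Sig φ r (L1 + 1) a ⊆ Sig φ r (L2 + 1) a := by
  rintro _ ⟨A, hA, rfl⟩
  have hch : ∀ c, ∃ B ⊆ Dom (some c), St φ r B = St φ r (child A c) ∧
      St φ r (B ∩ {g | g.norm ≤ L2}) = St φ r (child A c ∩ {g | g.norm ≤ L1}) ∧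
      (child A c = ∅ → B = ∅) := by
    intro c
    by_cases he : child A c = ∅
    · refine ⟨∅, Set.empty_subset _, by rw [he], by rw [he]; simp, fun _ => rfl⟩
    · have : (St φ r (child A c), St φ r (child A c ∩ {g | g.norm ≤ L1})) ∈
          Sig φ r L1 (some c) := ⟨_, child_subset_Dom A c, rfl⟩
      rw [h] at this
      obtain ⟨B, hB, e⟩ := this
      simp only [Prod.mk.injEq] at e
      exact ⟨B, hB, e.1.symm, e.2.symm, fun h => absurd h he⟩
  choose B hB hB1 hB2 hB3 using hch
  let A' : Set (FreeGroup α) := {w | (w = 1 ∧ (1 : FreeGroup α) ∈ A) ∨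
    ∃ c, hd w = some c ∧ (val [c])⁻¹ * w ∈ B c}
  have hA'1 : (1 : FreeGroup α) ∈ A ↔ 1 ∈ A' := by
    constructor
    · intro h; exact Or.inl ⟨rfl, h⟩
    · rintro (h | ⟨c, hc, _⟩)
      · exact h.2
      · simp at hc
  have hchild : ∀ c, child A' c = B c := by
    intro c
    ext w
    constructor
    · rintro ⟨h1, h2⟩
      rcases h2 with h2 | ⟨c', hc', h3⟩
      · rw [h2.1] at h1; simp at h1
      · rw [h1] at hc'
        simp only [Option.some.injEq] at hc'
        subst hc'
        rwa [inv_mul_cancel_left] at h3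
    · intro hw
      have h1 : hd (val [c] * w) = some c := hd_letter_mul (hB c hw)
      exact ⟨h1, Or.inr ⟨c, h1, by rwa [inv_mul_cancel_left]⟩⟩
  refine ⟨A', ?_, ?_⟩
  · rcases a with _ | d
    · exact Set.subset_univ _
    · rintro w hw hd'
      rcases hw with hw | ⟨c, hc, hw⟩
      · rw [hw.1] at hd'; simp at hd'
      · rw [hd'] at hc
        simp only [Option.some.injEq] at hc
        subst hc
        have : child A d.swap = ∅ := by
          rw [Set.eq_empty_iff_forall_notMem]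
          rintro y ⟨hy1, hy2⟩
          exact hA hy2 hy1
        rw [hB3 _ this] at hw
        exact hw
  · have e1 : St φ r A = St φ r A' :=
      St_congr φ hρ hr hA'1 (fun c => by rw [hchild, hB1])
    have hcut : ∀ (D : Set (FreeGroup α)) (L : ℕ) (c : α ⊕ α),
        child (D ∩ {g | g.norm ≤ L + 1}) c = child D c ∩ {g | g.norm ≤ L} := by
      intro D L c
      ext w
      simp only [child, Set.mem_inter_iff, Set.mem_ofPred_eq]
      constructor
      · rintro ⟨h1, h2, h3⟩
        have := norm_of_hd h1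
        rw [inv_mul_cancel_left] at this
        exact ⟨⟨h1, h2⟩, by omega⟩
      · rintro ⟨⟨h1, h2⟩, h3⟩
        have := norm_of_hd h1
        rw [inv_mul_cancel_left] at this
        exact ⟨h1, h2, by omega⟩
    have e2 : St φ r (A ∩ {g | g.norm ≤ L1 + 1}) = St φ r (A' ∩ {g | g.norm ≤ L2 + 1}) := by
      refine St_congr φ hρ hr ?_ (fun c => ?_)
      · simp only [Set.mem_inter_iff, Set.mem_ofPred_eq, FreeGroup.norm_one, zero_le, and_true]
        exact hA'1
      · rw [hcut, hcut, hchild, hB2]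
    rw [e1, e2]

lemma Sig_step {r ρ : ℕ} (hρ : ∀ b, (φ b).length ≤ ρ) (hr : ρ ≤ r) {L1 L2 : ℕ}
    (h : Sig φ r L1 = Sig φ r L2) : Sig φ r (L1 + 1) = Sig φ r (L2 + 1) := by
  funext a
  exact Set.Subset.antisymm (Sig_step_aux φ hρ hr h a) (Sig_step_aux φ hρ hr h.symm a)

lemma Sig_add {r ρ : ℕ} (hρ : ∀ b, (φ b).length ≤ ρ) (hr : ρ ≤ r) {L1 L2 : ℕ}
    (h : Sig φ r L1 = Sig φ r L2) (t : ℕ) : Sig φ r (L1 + t) = Sig φ r (L2 + t) := by
  induction t with
  | zero => exact h
  | succ t ih => exact Sig_step φ hρ hr ih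

/-- existence of a connection which disappears after truncation at depth `L` -/
def bad (r L : ℕ) : Prop :=
  ∃ (A : Set (FreeGroup α)) (v v' : FreeGroup α), v.norm ≤ r ∧ v'.norm ≤ r ∧ conn φ A v v' ∧
    ¬ conn φ (A ∩ {g | g.norm ≤ L}) v v'

lemma bad_iff (r L : ℕ) : bad φ r L ↔ ∃ s ∈ Sig φ r L none, ∃ p, p ∈ s.1.2 ∧ p ∉ s.2.2 := by
  constructor
  · rintro ⟨A, v, v', h1, h2, h3, h4⟩
    exact ⟨_, ⟨A, Set.subset_univ _, rfl⟩, (⟨v, h1⟩, ⟨v', h2⟩), h3, h4⟩
  · rintro ⟨_, ⟨A, _, rfl⟩, p, h3, h4⟩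
    exact ⟨A, p.1.1, p.2.1, p.1.2, p.2.2, h3, h4⟩

lemma bad_mono {r L L' : ℕ} (hL : L ≤ L') (h : bad φ r L') : bad φ r L := by
  obtain ⟨A, v, v', h1, h2, h3, h4⟩ := h
  refine ⟨A, v, v', h1, h2, h3, fun h5 => h4 (h5.mono ?_)⟩
  intro g hg
  exact ⟨hg.1, le_trans (show g.norm ≤ L from hg.2) hL⟩

lemma bad_all {r ρ : ℕ} (hρ : ∀ b, (φ b).length ≤ ρ) (hr : ρ ≤ r) {i j L0 : ℕ} (hij : i < j)
    (hj : j ≤ L0) (h : Sig φ r i = Sig φ r j) (hb : bad φ r L0) (L : ℕ) : bad φ r L := by
  induction L using Nat.strong_induction_on with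
  | _ L ih =>
  rcases le_or_gt L L0 with hL | hL
  · exact bad_mono φ hL hb
  · have h1 := Sig_add φ hρ hr h (L - j)
    have h2 : j + (L - j) = L := by omega
    have h3 := ih (i + (L - j)) (by omega)
    rw [bad_iff, h1, h2, ← bad_iff] at h3
    exact h3

end state

section card

/-- shortening a word without leaving its Munn tree -/
lemma shorten (φ : β → List (α ⊕ α)) (q : List (β ⊕ β)) (K : ℕ) (hK : (TT φ q).ncard ≤ K) :
    ∃ q' : List (β ⊕ β), q'.length ≤ K ∧ gg φ q' = gg φ q ∧ TT φ q' ⊆ TT φ q := by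
  classical
  have hex : ∃ n, ∃ q' : List (β ⊕ β), q'.length = n ∧ gg φ q' = gg φ q ∧ TT φ q' ⊆ TT φ q :=
    ⟨_, q, rfl, rfl, le_rfl⟩
  obtain ⟨q', h1, h2, h3⟩ := Nat.find_spec hex
  have hmin : ∀ s : List (β ⊕ β), gg φ s = gg φ q → TT φ s ⊆ TT φ q →
      q'.length ≤ s.length := by
    intro s hs1 hs2
    rw [h1]
    exact Nat.find_min' hex ⟨s, rfl, hs1, hs2⟩
  refine ⟨q', ?_, h2, h3⟩
  by_contra hcon
  push Not at hcon
  have hmaps : ∀ i ∈ Finset.range (q'.length + 1), gg φ (q'.take i) ∈ (TT_finite φ q).toFinset := by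
    intro i _
    rw [Set.Finite.mem_toFinset]
    apply h3
    have : q' = q'.take i ++ q'.drop i := (List.take_append_drop i q').symm
    rw [this, TT_append]
    left
    rw [← this]
    exact gg_mem_TT _ _
  have hcard : (TT_finite φ q).toFinset.card < (Finset.range (q'.length + 1)).card := by
    rw [← Set.ncard_eq_toFinset_card (TT φ q) (TT_finite φ q), Finset.card_range]
    omega
  obtain ⟨i, hi, j, hj, hij, he⟩ := Finset.exists_ne_map_eq_of_card_lt_of_maps_to hcard hmaps
  have key : ∀ i j, i < j → j ≤ q'.length → gg φ (q'.take i) = gg φ (q'.take j) → False := by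
    intro i j hij hj he
    have e1 : q' = q'.take j ++ q'.drop j := (List.take_append_drop j q').symm
    have e3 : q'.take j = q'.take i ++ (q'.take j).drop i := by
      have := (List.take_append_drop i (q'.take j)).symm
      rwa [List.take_take, min_eq_left hij.le] at this
    have hlt := hmin (q'.take i ++ q'.drop j) (by
      rw [gg_append, he, ← gg_append, List.take_append_drop, h2]) (by
      refine Set.Subset.trans ?_ h3
      rw [TT_append, he]
      conv_rhs => rw [e1, TT_append, e3, TT_append]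
      rw [← e3]
      exact Set.union_subset_union_left _ Set.subset_union_left)
    simp only [List.length_append, List.length_take, List.length_drop] at hlt
    omega
  simp only [Finset.mem_range] at hi hj
  rcases lt_or_gt_of_ne hij with h | h
  · exact key i j h (by omega) he
  · exact key j i h (by omega) he.symm

end card

section final

variable [DecidableEq α] [Fintype α]

/-- number of letters plus one -/
def nb (n r : ℕ) : ℕ := (2 * n + 1) ^ r

lemma card_ball_le (r : ℕ) : Nat.card (Bl α r) ≤ nb (Fintype.card α) r := by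
  have hinj : Function.Injective (fun (g : Bl α r) (i : Fin r) => (rwd g.1)[(i : ℕ)]?) := by
    intro g g' h
    apply Subtype.ext
    rw [← val_rwd g.1, ← val_rwd g'.1]
    congr 1
    apply List.ext_getElem?
    intro i
    rcases lt_or_ge i r with hi | hi
    · exact congrFun h ⟨i, hi⟩
    · rw [List.getElem?_eq_none (by rw [rwd_length]; exact g.2.trans hi),
        List.getElem?_eq_none (by rw [rwd_length]; exact g'.2.trans hi)]
  have := Nat.card_le_card_of_injective _ hinj
  refine this.trans ?_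
  rw [Nat.card_eq_fintype_card]
  simp [nb, two_mul]

/-- the bound on the number of families of states -/
def L0f (n r : ℕ) : ℕ :=
  (2 ^ ((2 ^ (nb n r) * 2 ^ (nb n r * nb n r)) * (2 ^ (nb n r) * 2 ^ (nb n r * nb n r)))) ^
    (2 * n + 1)

/-- the bound on the length of connecting words -/
def K0f (n r : ℕ) : ℕ := nb n (L0f n r)

instance (r : ℕ) : Finite (Bl α r) := (ball_finite (α := α) r)

lemma exists_Sig_eq (φ : β → List (α ⊕ α)) (r : ℕ) :
    ∃ i j, i < j ∧ j ≤ L0f (Fintype.card α) r ∧ Sig φ r i = Sig φ r j := by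
  classical
  have hb := card_ball_le (α := α) r
  set b := nb (Fintype.card α) r with hbdef
  have hfin : Fintype (Bl α r) := Fintype.ofFinite _
  rw [Nat.card_eq_fintype_card] at hb
  set X := Option (α ⊕ α) → Set ((Set (Bl α r) × Set (Bl α r × Bl α r)) ×
    (Set (Bl α r) × Set (Bl α r × Bl α r))) with hX
  have hcard : Fintype.card X ≤ L0f (Fintype.card α) r := by
    simp only [hX, Fintype.card_fun, Fintype.card_set, Fintype.card_prod, Fintype.card_option,
      Fintype.card_sum, L0f, ← hbdef]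
    rw [← two_mul]
    gcongr <;> norm_num
  have hlt : Fintype.card X < Fintype.card (Fin (L0f (Fintype.card α) r + 1)) := by
    rw [Fintype.card_fin]; omega
  obtain ⟨i, j, hij, he⟩ := Fintype.exists_ne_map_eq_of_card_lt
    (fun i : Fin (L0f (Fintype.card α) r + 1) => (Sig φ r i.1 : X)) hlt
  have hij' : i.1 ≠ j.1 := fun h => hij (Fin.ext h)
  rcases lt_or_gt_of_ne hij' with h | h
  · exact ⟨i, j, h, by omega, he⟩
  · exact ⟨j, i, h, by omega, he.symm⟩

/-- Theorem C : if the bounded path property holds with some bound it holds with a computable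
bound -/
theorem thmC {φ : β → List (α ⊕ α)} {r ρ K : ℕ} (hρ : ∀ b, (φ b).length ≤ ρ) (hr : ρ ≤ r)
    (hBP : BP φ (2 * r) K) : BP φ r (K0f (Fintype.card α) r) := by
  have hnb : ¬ bad φ r (L0f (Fintype.card α) r) := by
    intro hb
    obtain ⟨i, j, hij, hj, he⟩ := exists_Sig_eq φ r
    obtain ⟨A, v, v', h1, h2, ⟨p, h3, h4⟩, h5⟩ := bad_all φ hρ hr hij hj he hb (r + K * ρ)
    obtain ⟨q, q1, q2, q3⟩ := hBP p (by
      have := dist_triangle v 1 v'
      rw [← h3] at this h2
      rw [inv_mul_cancel_left, mul_one, norm_inv_eq, inv_one, one_mul] at this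
      omega)
    apply h5
    refine ⟨q, by rw [q3, h3], ?_⟩
    intro y hy
    refine ⟨h4 (Set.smul_set_mono q2 hy), ?_⟩
    have hv : v ∈ v • TT φ q := ⟨1, one_mem_TT _ _, by simp⟩
    have d1 := dist_of_mem_smul_TT φ hρ hv hy
    have d2 := dist_triangle 1 v y
    simp only [inv_one, one_mul] at d2
    have d3 : q.length * ρ ≤ K * ρ := Nat.mul_le_mul_right _ q1
    show y.norm ≤ _
    omega
  intro p hp
  have : conn φ (TT φ p ∩ {g | g.norm ≤ L0f (Fintype.card α) r}) 1 (gg φ p) := by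
    by_contra hcon
    exact hnb ⟨TT φ p, 1, gg φ p, by simp, hp, ⟨p, by simp, by simp⟩, hcon⟩
  obtain ⟨q, q1, q2⟩ := this
  rw [one_smul] at q2
  rw [one_mul] at q1
  obtain ⟨q', h1, h2, h3⟩ := shorten φ q (K0f (Fintype.card α) r) (by
    have h1 := Set.ncard_le_ncard (q2.trans Set.inter_subset_right)
      (ball_finite (α := α) (L0f (Fintype.card α) r))
    exact h1.trans (card_ball_le (α := α) (L0f (Fintype.card α) r)))
  exact ⟨q', h1, h3.trans (q2.trans Set.inter_subset_left), h2.trans q1⟩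

/-- the finite check -/
def Chk (φ : β → List (α ⊕ α)) (ρ K N : ℕ) : Prop :=
  ∀ p : List (β ⊕ β), p.length ≤ N → (gg φ p).norm ≤ 2 * ρ →
    ∃ q : List (β ⊕ β), q.length ≤ K ∧ TT φ q ⊆ TT φ p ∧ gg φ q = gg φ p

/-- Theorem D : local to global -/
theorem thmD {φ : β → List (α ⊕ α)} {ρ K : ℕ} (hρ : ∀ b, (φ b).length ≤ ρ)
    (h : Chk φ ρ K (nb (Fintype.card α) ((K + 2) * ρ))) : BP φ (2 * ρ) K := by
  intro p hp
  obtain ⟨q, q1, q2⟩ := main_ind (K := K) φ hρ (fun p q => TT φ q ⊆ TT φ p ∧ gg φ q = gg φ p)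
    (fun _ => ⟨le_rfl, rfl⟩) (fun _ _ _ h1 h2 => ⟨h2.1.trans h1.1, h2.2.trans h1.2⟩)
    (by
      intro p q p' q' h1 h2
      rw [TT_append, TT_append, gg_append, gg_append, h1.2, h2.2]
      exact ⟨Set.union_subset_union h1.1 (Set.smul_set_mono h2.1), rfl⟩)
    (fun _ _ h => h) (by
      intro p h1 h2
      obtain ⟨p', p1, p2, p3⟩ := shorten φ p (nb (Fintype.card α) ((K + 2) * ρ)) (by
        have h3 := Set.ncard_le_ncard (t := {g : FreeGroup α | g.norm ≤ (K + 2) * ρ}) h1
          (ball_finite (α := α) _)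
        exact h3.trans (card_ball_le (α := α) _))
      obtain ⟨q, q1, q2, q3⟩ := h p' p1 (by rw [p2]; exact h2)
      exact ⟨q, q1, q2.trans p3, q3.trans p2⟩) p hp
  exact ⟨q, q1, q2.1, q2.2⟩

end final

end Pool.Agent.MP_d35c37
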